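import Mathlib
import Pool.Agent.Helper868.LFS8

/-!
Finite groups all of whose finite nonabelian simple subgroups belong to a given class `S` embed in
finite perfect groups of the same kind, in such a way that each nontrivial element generates the
whole group as a normal subgroup.
-/

namespace Y608.LFU

open Finset Function Group H868.LFS

set_option linter.unusedSectionVars false
set_option linter.style.haveILetI false

/-- every finite simple group embedding in `G` is commutative or in the class `S` -/
def InCls (S : ∀ (T : Type) [Group T], Prop) (G : Type) [Group G] : Prop :=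
  ∀ (T : Type) [Group T] [Finite T] [IsSimpleGroup T] (f : T →* G), Injective f →
    (∀ a b : T, a * b = b * a) ∨ S T

variable {S : ∀ (T : Type) [Group T], Prop}

theorem _root_.H868.LFS.NoSimp.inCls {G : Type} [Group G] (h : NoSimp G) : InCls S G := by
  intro T _ _ _ f hf
  exact Or.inl (h T f hf)

/-- `InCls` passes to groups which embed. -/
theorem InCls.of_injective {G H : Type} [Group G] [Group H] (hH : InCls S H) (f : G →* H)
    (hf : Injective f) : InCls S G := by
  intro T _ _ _ g hg
  exact hH T (f.comp g) (hf.comp hg)

/-- A homomorphism from a simple group is injective or trivial. -/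
theorem inj_or_triv {T H : Type} [Group T] [IsSimpleGroup T] [Group H] (f : T →* H) :
    Injective f ∨ ∀ t, f t = 1 := by
  rcases (MonoidHom.normal_ker f).eq_bot_or_eq_top with h | h
  · left; exact (MonoidHom.ker_eq_bot_iff f).1 h
  · right
    intro t
    have : t ∈ f.ker := by rw [h]; trivial
    exact this

theorem InCls.prod {G H : Type} [Group G] [Group H] (hG : InCls S G) (hH : InCls S H) :
    InCls S (G × H) := by
  intro T _ _ _ f hf
  rcases inj_or_triv ((MonoidHom.fst G H).comp f) with h | h
  · exact hG T _ h
  · rcases inj_or_triv ((MonoidHom.snd G H).comp f) with h' | h'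
    · exact hH T _ h'
    · left
      intro a b
      apply hf
      exact Prod.ext ((h _).trans (h _).symm) ((h' _).trans (h' _).symm)

open RegularWreathProduct in
theorem InCls.wreath {D Q : Type} [Group D] [Group Q] (hD : InCls S D) (hQ : InCls S Q) :
    InCls S (D ≀ᵣ Q) := by
  intro T _ _ _ f hf
  rcases inj_or_triv ((rightHom : D ≀ᵣ Q →* Q).comp f) with h | h
  · exact hQ T _ h
  · have hr : ∀ t, (f t).right = 1 := h
    let ev : Q → (T →* D) := fun x =>
      { toFun := fun t => (f t).left x
        map_one' := by simp
        map_mul' := fun a b => by simp [hr] }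
    by_cases hx : ∃ x, Injective (ev x)
    · obtain ⟨x, hx⟩ := hx
      exact hD T _ hx
    · have htriv : ∀ t x, (f t).left x = 1 := by
        intro t x
        rcases inj_or_triv (ev x) with h' | h'
        · exact absurd ⟨x, h'⟩ hx
        · exact h' t
      left
      intro a b
      apply hf
      ext x
      · rw [htriv, htriv]
      · rw [hr, hr]

open RegularWreathProduct in
/-- The base group of the wreath product. -/
def base {D Q : Type} [Group D] [Group Q] : (Q → D) →* D ≀ᵣ Q where
  toFun v := ⟨v, 1⟩
  map_one' := rfl
  map_mul' a b := by ext <;> simp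

open RegularWreathProduct in
/-- Every finite group `D` in the class embeds in the perfect core of `D ≀ Q`, where `Q` is a
perfect group of at least the order of `D`. -/
theorem embed_perfect {D Q : Type} [Group D] [Group Q] [Finite D] [Finite Q] [IsPerfect Q]
    (hD : InCls S D) (hQ : InCls S Q) (hcard : Nat.card D ≤ Nat.card Q) :
    ∃ (P : Type) (_ : Group P) (_ : Finite P) (_ : IsPerfect P) (j : D →* P),
      InCls S P ∧ Injective j := by
  classical
  obtain ⟨m, hm⟩ := exists_core (D ≀ᵣ Q)
  set C := derivedSeries (D ≀ᵣ Q) m with hC
  haveI : IsPerfect C := hm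
  haveI hCn : C.Normal := derivedSeries_normal _ _
  have hQC : ∀ q : Q, (inl q : D ≀ᵣ Q) ∈ C := by
    intro q
    have h1 := map_derivedSeries_le_derivedSeries (inl : Q →* D ≀ᵣ Q) m
    rw [IsPerfect.derivedSeries_eq_top Q] at h1
    exact h1 ⟨q, trivial, rfl⟩
  let ψ : (Q → D) →* (D ≀ᵣ Q) ⧸ C := (QuotientGroup.mk' C).comp base
  have hψ : ∀ (v w : Q → D) (q : Q), (∀ x, w x = v (q⁻¹ * x)) → ψ w = ψ v := by
    intro v w q hvw
    have h1 : (base w : D ≀ᵣ Q) = inl q * base v * (inl q)⁻¹ := by
      ext x
      · simp [base, hvw]
      · simp [base]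
    change QuotientGroup.mk' C (base w) = QuotientGroup.mk' C (base v)
    have h2 : QuotientGroup.mk' C (inl q) = 1 := by
      rw [QuotientGroup.mk'_apply, QuotientGroup.eq_one_iff]; exact hQC q
    rw [h1, map_mul, map_mul, map_inv, h2]; simp
  -- a subset of `Q` with `|D|` elements
  letI : Fintype Q := Fintype.ofFinite Q
  letI : Fintype D := Fintype.ofFinite D
  obtain ⟨R, -, hR⟩ := Finset.exists_subset_card_eq (s := (Finset.univ : Finset Q))
    (n := Nat.card D) (by rw [Finset.card_univ, ← Nat.card_eq_fintype_card]; exact hcard)
  have hsing : ∀ (h : D) (x y : Q), ψ (Pi.mulSingle x h) = ψ (Pi.mulSingle y h) := by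
    intro h x y
    apply hψ _ _ (x * y⁻¹)
    intro z
    simp only [Pi.mulSingle_apply]
    have : z = x ↔ (x * y⁻¹)⁻¹ * z = y := by
      constructor
      · rintro rfl; group
      · intro h0
        rw [inv_mul_eq_iff_eq_mul] at h0
        simpa using h0
    simp only [this]
  have hpow : ∀ (h : D) (R : Finset Q),
      ψ (fun x => if x ∈ R then h else 1) = ψ (Pi.mulSingle 1 h) ^ R.card := by
    intro h R
    induction R using Finset.induction_on with
    | empty =>
      simp only [Finset.notMem_empty, if_false, Finset.card_empty, pow_zero]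
      exact map_one ψ
    | insert a R ha ih =>
      have h1 : (fun x => if x ∈ insert a R then h else 1) =
          (fun x => if x ∈ R then h else 1) * Pi.mulSingle a h := by
        ext x
        simp only [Pi.mul_apply, Pi.mulSingle_apply, Finset.mem_insert]
        by_cases hx : x = a
        · subst hx; simp [ha]
        · simp [hx]
      rw [h1, map_mul, ih, Finset.card_insert_of_notMem ha, pow_succ, hsing h a 1]
  have hmem : ∀ h : D, (base (fun x => if x ∈ R then h else 1) : D ≀ᵣ Q) ∈ C := by
    intro h
    have h1 := hpow h R
    rw [hR, ← map_pow, ← Pi.mulSingle_pow, pow_card_eq_one'] at h1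
    have h2 : ψ (Pi.mulSingle (1 : Q) (1 : D)) = 1 := by rw [Pi.mulSingle_one, map_one]
    rw [h2] at h1
    exact (QuotientGroup.eq_one_iff _).1 h1
  let j0 : D →* D ≀ᵣ Q :=
    { toFun := fun h => base (fun x => if x ∈ R then h else 1)
      map_one' := by
        have : (fun x : Q => if x ∈ R then (1 : D) else 1) = 1 := by ext x; simp
        rw [this, map_one]
      map_mul' := fun a b => by
        rw [← map_mul]
        congr 1
        ext x
        by_cases hx : x ∈ R <;> simp [hx] }
  refine ⟨C, inferInstance, inferInstance, hm, j0.codRestrict C hmem, ?_, ?_⟩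
  · exact InCls.of_injective (InCls.wreath hD hQ) C.subtype Subtype.val_injective
  · intro a b hab
    have hne : R.Nonempty := by
      rw [← Finset.card_pos, hR]; exact Nat.card_pos
    obtain ⟨x, hx⟩ := hne
    have h1 : j0 a = j0 b := congrArg Subtype.val hab
    have h2 := congrArg (fun z : D ≀ᵣ Q => z.left x) h1
    simpa [j0, base, hx] using h2

/-- The step of the tower. The proof is the one of `H868.LFS.next_exists`, for classes. -/
theorem next_cls (H : Type) [Group H] [Finite H] [IsPerfect H] (hH : InCls S H) :
    ∃ (P : Type) (_ : Group P) (_ : Finite P) (_ : IsPerfect P) (j : H →* P),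
      InCls S P ∧ Injective j ∧ Nat.card H < Nat.card P ∧
      ∀ h : H, h ≠ 1 → Subgroup.normalClosure {j h} = ⊤ := by
  obtain ⟨E, _, _, _, _, ι, hι, hcard⟩ := alt_embed H
  obtain ⟨E', _, _, ι', π, hup, hT⟩ := main_ext ι hι
  obtain ⟨m, hm⟩ := exists_core E'
  let P := derivedSeries E' m
  haveI : IsPerfect P := hm
  obtain ⟨hcomp, hsurj, hsolv⟩ := hup
  haveI := hsolv
  have hmem : ∀ h : H, ι' h ∈ P := by
    intro h
    have h1 := map_derivedSeries_le_derivedSeries ι' m
    rw [IsPerfect.derivedSeries_eq_top H] at h1
    exact h1 ⟨h, trivial, rfl⟩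
  let j : H →* P := ι'.codRestrict P hmem
  let πP : P →* E := π.comp P.subtype
  have hπP : Surjective πP := by
    intro e
    have h1 := map_derivedSeries_eq hsurj m
    rw [IsPerfect.derivedSeries_eq_top E] at h1
    have : e ∈ (derivedSeries E' m).map π := by rw [h1]; trivial
    obtain ⟨x, hx, rfl⟩ := this
    exact ⟨⟨x, hx⟩, rfl⟩
  have hπj : ∀ h : H, πP (j h) = ι h := by
    intro h
    rw [← hcomp]; rfl
  refine ⟨P, inferInstance, inferInstance, inferInstance, j, ?_, ?_, ?_, ?_⟩
  · -- the class
    intro T _ _ _ f hf
    by_cases hno : ∀ a b : T, a * b = b * a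
    · exact Or.inl hno
    let τ : T →* E' := P.subtype.comp f
    have hτ : Injective τ := (Subtype.val_injective).comp hf
    have hinj : Injective (π.comp τ) := by
      rw [← MonoidHom.ker_eq_bot_iff]
      rcases (MonoidHom.normal_ker (π.comp τ)).eq_bot_or_eq_top with h | h
      · exact h
      · exfalso
        apply hno
        rw [IsSimpleGroup.comm_iff_isSolvable]
        let g : T →* π.ker := τ.codRestrict π.ker (fun t => by
          have : t ∈ (π.comp τ).ker := by rw [h]; trivial
          exact this)
        exact isSolvable_of_isSolvable_injective (f := g) (by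
          intro a b hab
          apply hτ
          have h2 : (g a : E') = (g b : E') := by rw [hab]
          exact h2)
    obtain ⟨f', hf'⟩ := hT T τ hinj
    exact hH T f' hf'
  · intro a b hab
    apply hι
    rw [← hπj, ← hπj, hab]
  · exact lt_of_lt_of_le hcard (Nat.card_le_card_of_surjective πP hπP)
  · intro h hne
    set N := Subgroup.normalClosure {j h} with hN
    haveI : N.Normal := Subgroup.normalClosure_normal
    have hmapN : N.map πP = ⊤ := by
      haveI : (N.map πP).Normal := Subgroup.Normal.map inferInstance πP hπP
      rcases (inferInstance : (N.map πP).Normal).eq_bot_or_eq_top with h0 | h0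
      · exfalso
        apply hne
        apply hι
        rw [map_one, ← hπj]
        have : πP (j h) ∈ N.map πP :=
          ⟨j h, Subgroup.subset_normalClosure (Set.mem_singleton _), rfl⟩
        rw [h0] at this
        exact this
      · exact h0
    -- P / N is solvable
    haveI hKs : Group.IsSolvable πP.ker := by
      let g : πP.ker →* π.ker := (P.subtype.comp πP.ker.subtype).codRestrict π.ker
        (fun x => x.2)
      exact isSolvable_of_isSolvable_injective (f := g) (by
        intro a b hab
        apply Subtype.ext
        apply Subtype.ext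
        have h2 : (g a : E') = (g b : E') := by rw [hab]
        exact h2)
    let q : πP.ker →* P ⧸ N := (QuotientGroup.mk' N).comp πP.ker.subtype
    have hq : Surjective q := by
      intro z
      obtain ⟨x, rfl⟩ := QuotientGroup.mk_surjective z
      have : πP x ∈ N.map πP := by rw [hmapN]; trivial
      obtain ⟨y, hy, hxy⟩ := this
      refine ⟨⟨x * y⁻¹, ?_⟩, ?_⟩
      · rw [MonoidHom.mem_ker, map_mul, map_inv, hxy, mul_inv_cancel]
      · change ((x * y⁻¹ : P) : P ⧸ N) = (x : P ⧸ N)
        rw [QuotientGroup.eq]
        have : (x * y⁻¹)⁻¹ * x = y := by group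
        rw [this]; exact hy
    haveI : Group.IsSolvable (P ⧸ N) := isSolvable_of_surjective hq
    by_contra hne2
    haveI : Nontrivial (P ⧸ N) := by
      rw [← not_subsingleton_iff_nontrivial]
      intro hs
      apply hne2
      exact QuotientGroup.subgroup_eq_top_of_subsingleton N hs
    exact IsPerfect.not_isSolvable (P ⧸ N) inferInstance

end Y608.LFU
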