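import Mathlib
import Pool.Agent.Y608.LFU1

/-!
A tower of finite perfect groups which takes in every finite group all of whose nonabelian simple
subgroups belong to a given class `S`, and its union.
-/

namespace Y608.LFU

open Finset Function Group H868.LFS

set_option linter.unusedSectionVars false
set_option linter.style.haveILetI false

/-- Multiplication tables. -/
abbrev Code := Σ n : ℕ, (Fin n → Fin n → Fin n)

/-- The group `F` has the multiplication table `c`. -/
def HasTable (F : Type) [Group F] (c : Code) : Prop :=
  ∃ e : F ≃ Fin c.1, ∀ a b : F, e (a * b) = c.2 (e a) (e b)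

theorem exists_table (F : Type) [Group F] [Finite F] : ∃ c : Code, HasTable F c := by
  let e : F ≃ Fin (Nat.card F) := Finite.equivFin F
  exact ⟨⟨Nat.card F, fun i j => e (e.symm i * e.symm j)⟩, e, fun a b => by simp⟩

/-- Groups with the same table are isomorphic. -/
theorem HasTable.iso {F F' : Type} [Group F] [Group F'] {c : Code} (h : HasTable F c)
    (h' : HasTable F' c) : ∃ f : F →* F', Injective f := by
  obtain ⟨e, he⟩ := h
  obtain ⟨e', he'⟩ := h'
  refine ⟨MonoidHom.mk' (fun x => e'.symm (e x)) ?_, ?_⟩
  · intro a b
    apply e'.injective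
    rw [he', Equiv.apply_symm_apply, Equiv.apply_symm_apply, Equiv.apply_symm_apply, he]
  · intro a b hab
    exact e.injective (e'.symm.injective hab)

/-- A stage of the construction. -/
structure CStage (S : ∀ (T : Type) [Group T], Prop) where
  G : Type
  [grp : Group G]
  [fin : Finite G]
  [perf : IsPerfect G]
  cls : InCls S G

attribute [instance] CStage.grp CStage.fin CStage.perf

variable {S : ∀ (T : Type) [Group T], Prop}

/-- One step: the next stage contains the old one and all groups with the table `c`. -/
theorem cstage_next (s : CStage S) (c : Code) :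
    ∃ (t : CStage S) (j : s.G →* t.G), Injective j ∧
    Nat.card s.G < Nat.card t.G ∧ (∀ h : s.G, h ≠ 1 → Subgroup.normalClosure {j h} = ⊤) ∧
    ∀ (F : Type) [Group F] [Finite F], InCls S F → HasTable F c →
      ∃ f : F →* t.G, Injective f := by
  by_cases hc : ∃ (F : Type) (_ : Group F) (_ : Finite F), InCls S F ∧ HasTable F c
  · obtain ⟨F, _, _, hF, hFc⟩ := hc
    have h0 : Nat.card (s.G × F) ≤ Nat.card (tower (Nat.card (s.G × F))).G :=
      (card_tower _).le
    obtain ⟨P, _, _, _, i, hP, hi⟩ := embed_perfect (InCls.prod s.cls hF)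
      (tower (Nat.card (s.G × F))).nos.inCls h0
    obtain ⟨R, _, _, _, j, h1, h2, h3, h4⟩ := next_cls P hP
    have hinl : Injective (MonoidHom.inl s.G F) := fun a b hab => congrArg Prod.fst hab
    have hinr : Injective (MonoidHom.inr s.G F) := fun a b hab => congrArg Prod.snd hab
    refine ⟨⟨R, h1⟩, j.comp (i.comp (MonoidHom.inl s.G F)), h2.comp (hi.comp hinl), ?_, ?_, ?_⟩
    · exact (Nat.card_le_card_of_injective _ (hi.comp hinl)).trans_lt h3
    · intro h hne
      apply h4
      intro h5
      exact hne (hinl (hi (by rw [map_one, map_one]; exact h5)))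
    · intro F' _ _ _ hF'c
      obtain ⟨f, hf⟩ := hF'c.iso hFc
      exact ⟨j.comp (i.comp ((MonoidHom.inr s.G F).comp f)), h2.comp (hi.comp (hinr.comp hf))⟩
  · obtain ⟨R, _, _, _, j, h1, h2, h3, h4⟩ := next_cls s.G s.cls
    refine ⟨⟨R, h1⟩, j, h2, h3, h4, ?_⟩
    intro F _ _ hF hFc
    exact absurd ⟨F, inferInstance, inferInstance, hF, hFc⟩ hc

instance : Nonempty Code := ⟨⟨0, fun i => i.elim0⟩⟩

/-- an enumeration of the tables -/
noncomputable def enum : ℕ → Code := (exists_surjective_nat Code).choose

theorem enum_surj : Surjective enum := (exists_surjective_nat Code).choose_spec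

/-- the trivial stage -/
def cstage0 (S : ∀ (T : Type) [Group T], Prop) : CStage S where
  G := Unit
  cls := by
    intro T _ _ _ f hf
    left
    intro a b
    exact hf (Subsingleton.elim _ _)

variable (S) in
noncomputable def ctower : ℕ → CStage S
  | 0 => cstage0 S
  | n + 1 => (cstage_next (ctower n) (enum n)).choose

variable (S) in
noncomputable def ctowerMap (n : ℕ) : (ctower S n).G →* (ctower S (n + 1)).G :=
  (cstage_next (ctower S n) (enum n)).choose_spec.choose

variable (S) in
theorem ctowerMap_spec (n : ℕ) : Injective (ctowerMap S n) ∧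
    Nat.card (ctower S n).G < Nat.card (ctower S (n + 1)).G ∧
    (∀ h : (ctower S n).G, h ≠ 1 → Subgroup.normalClosure {ctowerMap S n h} = ⊤) ∧
    ∀ (F : Type) [Group F] [Finite F], InCls S F → HasTable F (enum n) →
      ∃ f : F →* (ctower S (n + 1)).G, Injective f :=
  (cstage_next (ctower S n) (enum n)).choose_spec.choose_spec

variable (S) in
theorem card_ctower (n : ℕ) : n < Nat.card (ctower S n).G := by
  induction n with
  | zero => exact Nat.card_pos
  | succ n ih => have := (ctowerMap_spec S n).2.1; omega

variable (S) in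
/-- A countable locally finite simple group all of whose nonabelian finite simple subgroups are in
`S`, which contains all finite groups with this property. -/
theorem main_cls : ∃ (G : Type) (_ : Group G), Infinite G ∧ Countable G ∧ IsSimpleGroup G ∧
    (∀ K : Subgroup G, K.FG → Finite K) ∧ InCls S G ∧
    ∀ (F : Type) [Group F] [Finite F], InCls S F → ∃ f : F →* G, Injective f := by
  obtain ⟨L, _, o, hinj, hcompat, hunion⟩ :=
    exists_limit (ctowerMap S) (fun n => (ctowerMap_spec S n).1)
  have hmono : ∀ n m, n ≤ m → ∀ x : (ctower S n).G, ∃ y : (ctower S m).G, o n x = o m y := by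
    intro n m h
    induction m, h using Nat.le_induction with
    | base => intro x; exact ⟨x, rfl⟩
    | succ m h ih =>
      intro x
      obtain ⟨y, hy⟩ := ih x
      exact ⟨ctowerMap S m y, by rw [hcompat, hy]⟩
  have hfin : ∀ A : Finset L, ∃ m, ∀ s ∈ A, s ∈ (o m).range := by
    classical
    intro A
    induction A using Finset.induction_on with
    | empty => exact ⟨0, by simp⟩
    | insert a A ha ih =>
      obtain ⟨m, hm⟩ := ih
      obtain ⟨n, x, hx⟩ := hunion a
      refine ⟨max m n, ?_⟩
      intro s hs
      rw [Finset.mem_insert] at hs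
      rcases hs with rfl | hs
      · obtain ⟨y, hy⟩ := hmono n (max m n) (le_max_right _ _) x
        exact ⟨y, by rw [hx, hy]⟩
      · obtain ⟨z, hz⟩ := hm s hs
        obtain ⟨y, hy⟩ := hmono m (max m n) (le_max_left _ _) z
        exact ⟨y, by rw [← hz, hy]⟩
  have hinf : Infinite L := by
    by_contra hno
    rw [not_infinite_iff_finite] at hno
    have h1 := Nat.card_le_card_of_injective _ (hinj (Nat.card L))
    exact absurd (card_ctower S (Nat.card L)) (not_lt.2 h1)
  have hcount : Countable L := by
    haveI : ∀ n, Countable (ctower S n).G := fun n => inferInstance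
    have hs : Surjective (fun z : (Σ n, (ctower S n).G) => o z.1 z.2) := by
      intro y
      obtain ⟨n, x, hx⟩ := hunion y
      exact ⟨⟨n, x⟩, hx.symm⟩
    exact hs.countable
  refine ⟨L, inferInstance, hinf, hcount, ?_, ?_, ?_, ?_⟩
  · haveI := hinf
    refine { exists_pair_ne := exists_pair_ne L, eq_bot_or_eq_top_of_normal := ?_ }
    intro N hN
    by_cases hb : N = ⊥
    · exact Or.inl hb
    right
    obtain ⟨g, hg, hg1⟩ : ∃ g ∈ N, g ≠ 1 := by
      by_contra hno
      push Not at hno
      exact hb ((Subgroup.eq_bot_iff_forall N).2 hno)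
    rw [eq_top_iff]
    intro y _
    classical
    obtain ⟨m, hm⟩ := hfin {g, y}
    obtain ⟨x, hx⟩ := hm g (by simp)
    obtain ⟨z, hz⟩ := hm y (by simp)
    have hx1 : x ≠ 1 := by
      rintro rfl
      exact hg1 (by rw [← hx, map_one])
    have hcl := (ctowerMap_spec S m).2.2.1 x hx1
    let N' : Subgroup (ctower S (m + 1)).G := N.comap (o (m + 1))
    have hN' : N'.Normal := hN.comap _
    have hmem : ctowerMap S m x ∈ N' := by
      change o (m + 1) (ctowerMap S m x) ∈ N
      rw [hcompat, hx]; exact hg
    have hle : Subgroup.normalClosure {ctowerMap S m x} ≤ N' :=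
      Subgroup.normalClosure_le_normal (by simpa using hmem)
    rw [hcl] at hle
    have : ctowerMap S m z ∈ N' := hle trivial
    have h3 : o (m + 1) (ctowerMap S m z) ∈ N := this
    rw [hcompat, hz] at h3
    exact h3
  · intro K hK
    obtain ⟨A, hA⟩ := hK
    obtain ⟨m, hm⟩ := hfin A
    have hle : K ≤ (o m).range := by
      rw [← hA, Subgroup.closure_le]
      intro s hs
      exact hm s (by simpa using hs)
    haveI : Finite (o m).range := by
      have : Finite (Set.range (o m)) := Set.finite_range _
      exact this
    exact Finite.of_injective (Subgroup.inclusion hle) (Subgroup.inclusion_injective hle)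
  · intro T _ _ _ g hg
    classical
    obtain ⟨m, hm⟩ := hfin (Set.finite_range g).toFinset
    have hle : ∀ k : T, ∃ x : (ctower S m).G, o m x = g k := by
      intro k
      obtain ⟨x, hx⟩ := hm (g k) (by simp)
      exact ⟨x, hx⟩
    choose f hf using hle
    let φ : T →* (ctower S m).G :=
      { toFun := f
        map_one' := hinj m (by rw [hf, map_one, map_one])
        map_mul' := fun a b => hinj m (by rw [hf, map_mul, map_mul, hf, hf]) }
    have hφ : Injective φ := by
      intro a b hab
      apply hg
      have h2 : f a = f b := hab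
      rw [← hf a, ← hf b, h2]
    exact (ctower S m).cls T φ hφ
  · intro F _ _ hF
    obtain ⟨c, hc⟩ := exists_table F
    obtain ⟨n, rfl⟩ := enum_surj c
    obtain ⟨f, hf⟩ := (ctowerMap_spec S n).2.2.2 F hF hc
    exact ⟨(o (n + 1)).comp f, (hinj (n + 1)).comp hf⟩

end Y608.LFU
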