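import Mathlib

/-!
The endomorphism of a free group which raises the free generators to a positive power is injective.
-/

set_option autoImplicit false

namespace Y608.BUT

open FreeGroup

variable {α : Type}

/-- every letter is repeated `k + 1` times -/
def rep (k : ℕ) (L : List (α × Bool)) : List (α × Bool) := L.flatMap (List.replicate (k + 1))

theorem rep_cons (k : ℕ) (x : α × Bool) (L : List (α × Bool)) :
    rep k (x :: L) = List.replicate (k + 1) x ++ rep k L := by
  simp [rep]

theorem head_rep (k : ℕ) (x : α × Bool) (L : List (α × Bool)) :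
    (rep k (x :: L)).head? = some x := by
  rw [rep_cons, List.replicate_succ]; rfl

theorem isReduced_rep (k : ℕ) : ∀ L : List (α × Bool), IsReduced L → IsReduced (rep k L)
  | [], _ => IsReduced.nil
  | [x], _ => by
    rw [rep_cons]
    simp only [rep, List.flatMap_nil, List.append_nil]
    exact List.isChain_replicate_of_rel _ (fun _ => rfl)
  | x :: y :: L, h => by
    rw [isReduced_cons_cons] at h
    have ih := isReduced_rep k (y :: L) h.2
    rw [rep_cons, FreeGroup.IsReduced, List.isChain_append]
    refine ⟨List.isChain_replicate_of_rel _ (fun _ => rfl), ih, ?_⟩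
    intro a ha b hb
    rw [head_rep, Option.mem_some_iff] at hb
    subst hb
    have ha' : a = x := by
      have := List.mem_of_mem_getLast? ha
      exact (List.mem_replicate.1 this).2
    subst ha'
    exact h.1

theorem mk_replicate (k : ℕ) (x : α × Bool) : mk (List.replicate k x) = mk [x] ^ k := by
  induction k with
  | zero => rfl
  | succ k ih => rw [List.replicate_succ, pow_succ', ← ih, mul_mk]; rfl

/-- the power map -/
def powMap (k : ℕ) : FreeGroup α →* FreeGroup α := FreeGroup.lift fun i => FreeGroup.of i ^ k

theorem powMap_mk (k : ℕ) (L : List (α × Bool)) : powMap (k + 1) (mk L) = mk (rep k L) := by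
  induction L with
  | nil =>
    change powMap (k + 1) 1 = 1
    exact _root_.map_one _
  | cons x L ih =>
    have h1 : mk (x :: L) = mk [x] * mk L := by rw [mul_mk]; rfl
    have h2 : powMap (k + 1) (mk [x]) = mk [x] ^ (k + 1) := by
      obtain ⟨i, b⟩ := x
      cases b
      · have h3 : (mk [(i, false)] : FreeGroup α) = (of i)⁻¹ := rfl
        rw [h3, _root_.map_inv, powMap, lift_apply_of, inv_pow]
      · have h3 : (mk [(i, true)] : FreeGroup α) = of i := rfl
        rw [h3, powMap, lift_apply_of]
    rw [h1, _root_.map_mul, ih, h2, rep_cons, ← mul_mk, mk_replicate]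

theorem powMap_ne [DecidableEq α] {k : ℕ} (hk : 0 < k) {w : FreeGroup α} (hw : w ≠ 1) :
    powMap k w ≠ 1 := by
  obtain ⟨m, rfl⟩ : ∃ m, k = m + 1 := ⟨k - 1, by omega⟩
  intro h
  have h1 : powMap (m + 1) w = mk (rep m w.toWord) := by
    rw [← powMap_mk, mk_toWord]
  rw [h1] at h
  have h2 : reduce (rep m w.toWord) = [] := by
    rw [← toWord_mk, h, toWord_one]
  rw [(isReduced_rep m _ isReduced_toWord).reduce_eq] at h2
  apply hw
  rw [← toWord_eq_nil_iff]
  cases hL : w.toWord with
  | nil => rfl
  | cons x L =>
    rw [hL, rep_cons, List.replicate_succ] at h2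
    simp at h2

end Y608.BUT
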