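import Mathlib
import Pool.Agent.TH54.BU.Iter
import Pool.Agent.TH54.BU.Inf
import Pool.Agent.TH54.BU.TorsGrp
import Pool.Agent.Y608.BUT1

/-!
A finitely generated torsion group with a nontrivial law whose variety contains a given sequence of
countable torsion groups with a common nontrivial law.
-/

set_option autoImplicit false

namespace Y608.BUT

open Pool.Agent.TH54.BU Pool.Agent.TH54.BU.Tors RegularWreathProduct

section family

variable (H : ℕ → Type) [∀ i, Group (H i)]

/-- the restricted direct product -/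
def FS : Subgroup (∀ i, H i) where
  carrier := {f | {i | f i ≠ 1}.Finite}
  one_mem' := by simp
  mul_mem' := by
    intro a b ha hb
    refine (Set.Finite.union ha hb).subset ?_
    intro i hi
    by_contra h
    simp only [Set.mem_union, Set.mem_setOf_eq, not_or, not_not] at h
    exact hi (by rw [Pi.mul_apply, h.1, h.2, one_mul])
  inv_mem' := by
    intro a ha
    refine Set.Finite.subset ha ?_
    intro i hi h
    exact hi (by rw [Pi.inv_apply, h, inv_one])

variable {H}

theorem torsion_FS (ht : ∀ i (x : H i), IsOfFinOrder x) (f : FS H) : IsOfFinOrder f := by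
  classical
  rw [sub_fin]
  obtain ⟨f, hf⟩ := f
  have hf' : {i | f i ≠ 1}.Finite := hf
  rw [isOfFinOrder_iff_pow_eq_one]
  refine ⟨∏ i ∈ hf'.toFinset, orderOf (f i), Finset.prod_pos fun i _ => (ht i _).orderOf_pos, ?_⟩
  ext i
  rw [Pi.pow_apply, Pi.one_apply]
  by_cases hi : f i = 1
  · simp only [hi, one_pow]
  · refine orderOf_dvd_iff_pow_eq_one.1 ?_
    exact Finset.dvd_prod_of_mem (fun i => orderOf (f i)) (hf'.mem_toFinset.2 hi)

/-- the embedding of a factor -/
def ins (i : ℕ) : H i →* FS H where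
  toFun u := ⟨Pi.mulSingle i u, by
    refine (Set.finite_singleton i).subset ?_
    intro j hj
    by_contra h
    exact hj (Pi.mulSingle_eq_of_ne h u)⟩
  map_one' := by
    ext1
    exact Pi.mulSingle_one i
  map_mul' a b := by
    ext1
    exact (MonoidHom.mulSingle (fun n => H n) i).map_mul a b

theorem ins_injective (i : ℕ) : Function.Injective (ins (H := H) i) := by
  intro a b h
  have := congrArg Subtype.val h
  exact Pi.mulSingle_injective i this

/-- the involutions -/
def sgn (i : ℕ) (u : H i) : RegularWreathProduct (FS H) ℤˣ :=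
  ⟨fun k : ℤˣ => ins i u ^ (k : ℤ), -1⟩

theorem sgn_sq (i : ℕ) (u : H i) : sgn i u ^ 2 = 1 := by
  rw [pow_two]
  ext1
  · ext1 k
    simp [sgn]
  · simp [sgn]

/-- The pairs `(u, u⁻¹)` are products of two involutions. -/
theorem sgn_mul (i : ℕ) (u : H i) :
    sgn i u * sgn i 1 = base fun k : ℤˣ => ins i u ^ (k : ℤ) := by
  ext1
  · ext1 k
    simp [sgn, base_left]
  · simp [sgn, base_right]

theorem torsion_two (ht : ∀ i (x : H i), IsOfFinOrder x)
    (x : RegularWreathProduct (FS H) ℤˣ) : IsOfFinOrder x := by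
  have h : (x ^ 2).right = 1 := by
    rw [pow_right]
    exact Int.units_sq _
  have h2 : IsOfFinOrder (x ^ 2) := by
    rw [eq_base h]
    apply MonoidHom.isOfFinOrder
    have h3 : ∀ c, IsOfFinOrder ((x ^ 2).left c) := fun c => torsion_FS ht _
    rw [isOfFinOrder_iff_pow_eq_one]
    refine ⟨∏ c, orderOf ((x ^ 2).left c), Finset.prod_pos fun c _ => (h3 c).orderOf_pos, ?_⟩
    ext1 c
    rw [Pi.pow_apply]
    exact orderOf_dvd_iff_pow_eq_one.1 (Finset.dvd_prod_of_mem _ (Finset.mem_univ c))
  rw [isOfFinOrder_iff_pow_eq_one] at h2 ⊢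
  obtain ⟨n, hn, hn2⟩ := h2
  exact ⟨2 * n, by omega, by rw [pow_mul, hn2]⟩

/-- A law of all the groups `H i` holds in the base group of the wreath product. -/
theorem law_FS {v : FreeGroup ℕ} (hv : ∀ i, ∀ f : FreeGroup ℕ →* H i, f v = 1)
    (f : FreeGroup ℕ →* FS H) : f v = 1 := by
  ext i
  exact hv i ((Pi.evalMonoidHom H i).comp ((FS H).subtype.comp f))

theorem law_Pi {C P : Type} [Group P] {v : FreeGroup ℕ} (hv : ∀ f : FreeGroup ℕ →* P, f v = 1)
    (f : FreeGroup ℕ →* (C → P)) : f v = 1 := by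
  ext c
  exact hv ((Pi.evalMonoidHom (fun _ : C => P) c).comp f)

/-- If the base of a wreath product satisfies `v` and the `m`-th powers lie in the base, then
the wreath product satisfies `v(x_0^m, x_1^m, ...)`. -/
theorem law_wr {P Q : Type} [Group P] [Group Q] {v : FreeGroup ℕ}
    (hv : ∀ f : FreeGroup ℕ →* P, f v = 1) {m : ℕ} (hQ : ∀ x : Q, x ^ m = 1)
    (f : FreeGroup ℕ →* RegularWreathProduct P Q) : f (powMap m v) = 1 := by
  set φ : FreeGroup ℕ →* (Q → P) := FreeGroup.lift fun i => (f (FreeGroup.of i) ^ m).left with hφ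
  have key : f.comp (powMap m) = (base (D := P) (Q := Q)).comp φ := by
    apply FreeGroup.ext_hom
    intro i
    rw [MonoidHom.comp_apply, MonoidHom.comp_apply, powMap, FreeGroup.lift_apply_of, hφ,
      FreeGroup.lift_apply_of, map_pow]
    apply eq_base
    rw [pow_right, hQ]
  have h := DFunLike.congr_fun key v
  rw [MonoidHom.comp_apply, MonoidHom.comp_apply] at h
  rw [h, law_Pi hv φ, map_one]

/-- the laws of a group containing all the involutions are laws of all `H i` -/
theorem law_back {w : FreeGroup ℕ} (S : Subgroup (RegularWreathProduct (FS H) ℤˣ))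
    (hS : ∀ i (u : H i), sgn i u ∈ S)
    (hw : ∀ f : FreeGroup ℕ →* RegularWreathProduct (FS H) ℤˣ, (∀ x, f x ∈ S) → f w = 1)
    (i : ℕ) (f : FreeGroup ℕ →* H i) : f w = 1 := by
  set g : FreeGroup ℕ →* (ℤˣ → FS H) := FreeGroup.lift fun j => fun k : ℤˣ =>
    ins i (f (FreeGroup.of j)) ^ (k : ℤ) with hg
  have h1 : ∀ x, (base (D := FS H) (Q := ℤˣ)).comp g x ∈ S := by
    intro x
    induction x using FreeGroup.induction_on with
    | C1 => rw [map_one]; exact one_mem _
    | of j =>
      rw [MonoidHom.comp_apply, hg, FreeGroup.lift_apply_of, ← sgn_mul]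
      exact mul_mem (hS _ _) (hS _ _)
    | inv_of j ih => rw [map_inv]; exact inv_mem ih
    | mul x y hx hy => rw [map_mul]; exact mul_mem hx hy
  have h2 := hw _ h1
  have h3 : (Pi.evalMonoidHom (fun _ : ℤˣ => FS H) 1).comp g = (ins i).comp f := by
    apply FreeGroup.ext_hom
    intro j
    rw [MonoidHom.comp_apply, MonoidHom.comp_apply, hg, FreeGroup.lift_apply_of]
    simp
  have h4 := DFunLike.congr_fun h3 w
  rw [MonoidHom.comp_apply, MonoidHom.comp_apply] at h4
  have h5 : g w = 1 := by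
    have := congrArg RegularWreathProduct.left h2
    exact this
  rw [h5, map_one] at h4
  exact ins_injective i (by rw [← h4, map_one])

end family

/-- **Main construction.** -/
theorem exists_torsion_of_family {B : Type} [Group B] (hB : Infinite B) (hfg : Group.FG B) {q : ℕ}
    (hq : 0 < q) (hexp : ∀ b : B, b ^ q = 1) (H : ℕ → Type) [∀ i, Group (H i)]
    [∀ i, Countable (H i)] (ht : ∀ i (x : H i), IsOfFinOrder x) {v : FreeGroup ℕ} (hv : v ≠ 1)
    (hHv : ∀ i, ∀ f : FreeGroup ℕ →* H i, f v = 1) :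
    ∃ (G : Type) (_ : Group G), Group.FG G ∧ (∀ g : G, IsOfFinOrder g) ∧
      (∃ w : FreeGroup ℕ, w ≠ 1 ∧ ∀ f : FreeGroup ℕ →* G, f w = 1) ∧
      ∀ w : FreeGroup ℕ, (∀ f : FreeGroup ℕ →* G, f w = 1) → ∀ i, ∀ f : FreeGroup ℕ →* H i,
        f w = 1 := by
  obtain ⟨T, hT⟩ := hfg.out
  have : Countable B := by
    obtain ⟨α, hα, φ, hφ⟩ := Group.fg_iff_exists_freeGroup_hom_surjective_finite.1 hfg
    classical
    have : Countable (FreeGroup α) :=
      Function.Surjective.countable (f := fun L : List (α × Bool) => FreeGroup.mk L)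
        (fun x => ⟨x.toWord, FreeGroup.mk_toWord⟩)
    exact hφ.countable
  obtain ⟨s, hs, hs2⟩ := exists_sparse (B := B)
  have : Nonempty (Σ i, H i) := ⟨⟨0, 1⟩⟩
  obtain ⟨e, he⟩ := exists_surjective_nat (Σ i, H i)
  set a : ℕ → RegularWreathProduct (FS H) ℤˣ := fun k => sgn (e k).1 (e k).2 with ha
  refine ⟨GG s a (T : Set B), inferInstance, fg_GG s a T.finite_toSet,
    torsion_GG s a _ hs hs2 (N := 2) (by omega) (fun i => sgn_sq _ _) (torsion_two ht)
      hq hexp, ⟨powMap q (powMap 2 v), ?_, ?_⟩, ?_⟩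
  · exact powMap_ne hq (powMap_ne (by omega) hv)
  · intro f
    have h1 : ∀ f : FreeGroup ℕ →* RegularWreathProduct (FS H) ℤˣ, f (powMap 2 v) = 1 :=
      law_wr (law_FS hHv) Int.units_sq
    have h2 := law_wr h1 hexp ((GG s a (T : Set B)).subtype.comp f)
    rw [← OneMemClass.coe_eq_one]
    exact h2
  · intro w hw i f
    refine law_back (Subgroup.closure (Set.range a)) ?_ ?_ i f
    · intro i u
      obtain ⟨k, hk⟩ := he ⟨i, u⟩
      refine Subgroup.subset_closure ⟨k, ?_⟩
      simp only [ha]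
      rw [hk]
    · intro f hf
      exact law_values s a hT hs w hw f hf

end Y608.BUT
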