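import Mathlib
import Pool.Agent.TH54.BU.LawWr
import Pool.Agent.Y608.BUT2

/-!
For every nontrivial word `v` there is a finitely generated torsion group with a nontrivial law
whose variety contains all residually torsion groups satisfying the law `v`.
-/

set_option autoImplicit false

namespace Y608.BUT

open Pool.Agent.TH54.BU Pool.Agent.TH54.BU.Tors RegularWreathProduct
open scoped commutatorElement

universe u

/-- residually torsion groups (in particular all torsion and all residually finite groups) -/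
def ResTorsion (H : Type u) [Group H] : Prop :=
  ∀ x : H, x ≠ 1 → ∃ N : Subgroup H, N.Normal ∧ x ∉ N ∧ ∀ y : H, ∃ n : ℕ, 0 < n ∧ y ^ n ∈ N

theorem ResTorsion.of_torsion {H : Type u} [Group H] (h : ∀ x : H, IsOfFinOrder x) :
    ResTorsion H := by
  intro x hx
  refine ⟨⊥, inferInstance, by simpa using hx, ?_⟩
  intro y
  obtain ⟨n, hn, hy⟩ := isOfFinOrder_iff_pow_eq_one.1 (h y)
  exact ⟨n, hn, by simpa using hy⟩

/-- normal subgroups of the free group with torsion quotient satisfying `v` -/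
def Good (v : FreeGroup ℕ) (N : Subgroup (FreeGroup ℕ)) : Prop :=
  N.Normal ∧ (∀ x, ∃ n : ℕ, 0 < n ∧ x ^ n ∈ N) ∧ ∀ φ : FreeGroup ℕ →* FreeGroup ℕ, φ v ∈ N

theorem good_top (v : FreeGroup ℕ) : Good v ⊤ :=
  ⟨inferInstance, fun _ => ⟨1, one_pos, trivial⟩, fun _ => trivial⟩

theorem exists_good (v w : FreeGroup ℕ) :
    ∃ N, Good v N ∧ ((∃ N', Good v N' ∧ w ∉ N') → w ∉ N) := by
  by_cases h : ∃ N', Good v N' ∧ w ∉ N'
  · obtain ⟨N, h1, h2⟩ := h
    exact ⟨N, h1, fun _ => h2⟩
  · exact ⟨⊤, good_top v, fun h' => absurd h' h⟩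

theorem countable_free : Countable (FreeGroup ℕ) :=
  Function.Surjective.countable (f := fun L : List (ℕ × Bool) => FreeGroup.mk L)
    (fun x => ⟨x.toWord, FreeGroup.mk_toWord⟩)

theorem main {B : Type} [Group B] (hB : Infinite B) (hfg : Group.FG B) {q : ℕ}
    (hq : 0 < q) (hexp : ∀ b : B, b ^ q = 1) (v : FreeGroup ℕ) (hv : v ≠ 1) :
    ∃ (G : Type) (_ : Group G), Group.FG G ∧ (∀ g : G, IsOfFinOrder g) ∧
      (∃ w : FreeGroup ℕ, w ≠ 1 ∧ ∀ f : FreeGroup ℕ →* G, f w = 1) ∧
      ∀ w : FreeGroup ℕ, (∀ f : FreeGroup ℕ →* G, f w = 1) →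
        ∀ (H : Type u) [Group H], ResTorsion H → (∀ f : FreeGroup ℕ →* H, f v = 1) →
          ∀ f : FreeGroup ℕ →* H, f w = 1 := by
  haveI := countable_free
  obtain ⟨e, he⟩ := exists_surjective_nat (FreeGroup ℕ)
  choose N hN hN2 using exists_good v
  haveI hn : ∀ w, (N w).Normal := fun w => (hN w).1
  haveI : ∀ i, Countable (FreeGroup ℕ ⧸ N (e i)) := fun i =>
    (QuotientGroup.mk_surjective (s := N (e i))).countable
  obtain ⟨G, _, h1, h2, h3, h4⟩ := exists_torsion_of_family hB hfg hq hexp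
    (fun i => FreeGroup ℕ ⧸ N (e i)) (by
      intro i x
      obtain ⟨y, rfl⟩ := QuotientGroup.mk_surjective x
      obtain ⟨n, hn, hy⟩ := (hN (e i)).2.1 y
      rw [isOfFinOrder_iff_pow_eq_one]
      exact ⟨n, hn, by rw [← QuotientGroup.mk_pow, QuotientGroup.eq_one_iff]; exact hy⟩) hv (by
      intro i f
      choose g hg using fun j : ℕ =>
        QuotientGroup.mk_surjective (s := N (e i)) (f (FreeGroup.of j))
      have h : f = (QuotientGroup.mk' (N (e i))).comp (FreeGroup.lift g) := by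
        apply FreeGroup.ext_hom
        intro j
        rw [MonoidHom.comp_apply, FreeGroup.lift_apply_of]
        exact (hg j).symm
      rw [h, MonoidHom.comp_apply]
      exact (QuotientGroup.eq_one_iff _).2 ((hN (e i)).2.2 _))
  refine ⟨G, inferInstance, h1, h2, h3, ?_⟩
  intro w hw H _ hH hHv f
  by_contra hne
  obtain ⟨K, hK, hK1, hK2⟩ := hH _ hne
  haveI := hK
  have hgood : Good v (K.comap f) := by
    refine ⟨inferInstance, ?_, ?_⟩
    · intro x
      obtain ⟨n, hn, hx⟩ := hK2 (f x)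
      exact ⟨n, hn, by rw [Subgroup.mem_comap, map_pow]; exact hx⟩
    · intro φ
      rw [Subgroup.mem_comap]
      have := hHv (f.comp φ)
      rw [MonoidHom.comp_apply] at this
      rw [this]; exact one_mem _
  have h5 : w ∉ N w := hN2 w ⟨_, hgood, hK1⟩
  obtain ⟨i, hi⟩ := he w
  have h6 := h4 w hw i (QuotientGroup.mk' (N (e i)))
  rw [hi] at h6
  exact h5 ((QuotientGroup.eq_one_iff _).1 h6)

/-- the metabelian law -/
def mword : FreeGroup ℕ :=
  ⁅⁅FreeGroup.of 0, FreeGroup.of 1⁆, ⁅FreeGroup.of 2, FreeGroup.of 3⁆⁆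

theorem mword_ne : mword ≠ 1 := by
  intro h
  set ρ : FreeGroup ℕ →* Equiv.Perm (Fin 5) := FreeGroup.lift fun i =>
    if i = 0 then Equiv.swap 0 1 else if i = 1 then Equiv.swap 1 2 else
      if i = 2 then Equiv.swap 2 3 else Equiv.swap 3 4 with hρ
  have h2 := congrArg ρ h
  rw [mword, map_commutatorElement, map_commutatorElement, map_commutatorElement, map_one] at h2
  simp only [hρ, FreeGroup.lift_apply_of] at h2
  revert h2
  norm_num
  decide

/-- groups with abelian derived subgroup satisfy the metabelian law -/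
theorem mword_law {H : Type u} [Group H] (N : Subgroup H)
    (h2 : ∀ x ∈ N, ∀ y ∈ N, x * y = y * x) (h3 : ∀ x y : H, ⁅x, y⁆ ∈ N)
    (f : FreeGroup ℕ →* H) : f mword = 1 := by
  rw [mword, map_commutatorElement, map_commutatorElement, map_commutatorElement,
    commutatorElement_eq_one_iff_mul_comm]
  exact h2 _ (h3 _ _) _ (h3 _ _)

end Y608.BUT
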