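import Mathlib
import Pool.Agent.Y608.BUT3

/-!
Counting edges of paths in Cayley graphs; if the points of `F / R` are separated by torsion
quotients, then so are the points of `F / [R, R]`.
-/

set_option autoImplicit false

namespace Y608.BUT

open Pool.Agent.TH54.BU Pool.Agent.TH54.BU.Tors RegularWreathProduct
open scoped commutatorElement

universe u

open Classical in
/-- The signed number of passages of the path of the word `L` through the edge `(i, t)` of the
Cayley graph modulo `K`. -/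
noncomputable def cK (K : Subgroup (FreeGroup ℕ)) (i : ℕ) :
    List (ℕ × Bool) → FreeGroup ℕ → ℤ
  | [], _ => 0
  | (j, true) :: L, t =>
    (if j = i ∧ t ∈ K then 1 else 0) + cK K i L ((FreeGroup.of j)⁻¹ * t)
  | (j, false) :: L, t =>
    (if j = i ∧ FreeGroup.of j * t ∈ K then -1 else 0) +
      cK K i L (FreeGroup.of j * t)

/-- the elements whose membership in `K` matters -/
def tests : List (ℕ × Bool) → FreeGroup ℕ → List (FreeGroup ℕ)
  | [], _ => []
  | (j, true) :: L, t => t :: tests L ((FreeGroup.of j)⁻¹ * t)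
  | (j, false) :: L, t => (FreeGroup.of j * t) :: tests L (FreeGroup.of j * t)

theorem cK_congr (K K' : Subgroup (FreeGroup ℕ)) (i : ℕ) :
    ∀ (L : List (ℕ × Bool)) (t : FreeGroup ℕ), (∀ z ∈ tests L t, z ∈ K ↔ z ∈ K') →
      cK K i L t = cK K' i L t
  | [], _, _ => rfl
  | (j, true) :: L, t, h => by
    have h1 := cK_congr K K' i L ((FreeGroup.of j)⁻¹ * t)
      (fun z hz => h z (by rw [tests]; exact List.mem_cons_of_mem _ hz))
    have h2 := h t (by rw [tests]; exact List.mem_cons_self)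
    rw [cK, cK, h1]
    congr 1
    by_cases h3 : j = i ∧ t ∈ K
    · rw [if_pos h3, if_pos ⟨h3.1, h2.1 h3.2⟩]
    · rw [if_neg h3, if_neg fun h4 => h3 ⟨h4.1, h2.2 h4.2⟩]
  | (j, false) :: L, t, h => by
    have h1 := cK_congr K K' i L (FreeGroup.of j * t)
      (fun z hz => h z (by rw [tests]; exact List.mem_cons_of_mem _ hz))
    have h2 := h (FreeGroup.of j * t) (by rw [tests]; exact List.mem_cons_self)
    rw [cK, cK, h1]
    congr 1
    by_cases h3 : j = i ∧ FreeGroup.of j * t ∈ K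
    · rw [if_pos h3, if_pos ⟨h3.1, h2.1 h3.2⟩]
    · rw [if_neg h3, if_neg fun h4 => h3 ⟨h4.1, h2.2 h4.2⟩]

section wreath

variable {T : Type} [Group T] (p : ℕ) (h : FreeGroup ℕ →* T) (i : ℕ)

open Classical in
/-- the homomorphism to `C_p wr T` which counts the edges with label `i` modulo `p` -/
noncomputable def cw : FreeGroup ℕ →* RegularWreathProduct (Multiplicative (ZMod p)) T :=
  FreeGroup.lift fun j =>
    ⟨fun y => if j = i ∧ y = 1 then Multiplicative.ofAdd 1 else 1, h (FreeGroup.of j)⟩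

open Classical in
theorem cw_of_left (j : ℕ) (y : T) : (cw p h i (FreeGroup.of j)).left y =
    if j = i ∧ y = 1 then Multiplicative.ofAdd 1 else 1 := by
  rw [cw, FreeGroup.lift_apply_of]

theorem cw_right (x : FreeGroup ℕ) : (cw p h i x).right = h x := by
  have : (rightHom : RegularWreathProduct (Multiplicative (ZMod p)) T →* T).comp (cw p h i) = h := by
    apply FreeGroup.ext_hom
    intro j
    rw [MonoidHom.comp_apply, cw, FreeGroup.lift_apply_of]
    rfl
  exact DFunLike.congr_fun this x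

theorem cw_left : ∀ (L : List (ℕ × Bool)) (t : FreeGroup ℕ),
    (cw p h i (FreeGroup.mk L)).left (h t) =
      Multiplicative.ofAdd ((cK h.ker i L t : ℤ) : ZMod p)
  | [], t => by
    change (cw p h i 1).left (h t) = _
    rw [_root_.map_one, cK]
    simp
  | (j, true) :: L, t => by
    have h1 : (FreeGroup.mk ((j, true) :: L) : FreeGroup ℕ) = FreeGroup.of j * FreeGroup.mk L := by
      rw [FreeGroup.of, FreeGroup.mul_mk]; rfl
    have ih := cw_left L ((FreeGroup.of j)⁻¹ * t)
    rw [_root_.map_mul, _root_.map_inv] at ih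
    rw [h1, _root_.map_mul, mul_left, Pi.mul_apply, cw_right, ih, cK, Int.cast_add, ofAdd_add]
    congr 1
    rw [cw_of_left]
    by_cases h3 : j = i ∧ t ∈ h.ker
    · rw [if_pos h3, if_pos ⟨h3.1, MonoidHom.mem_ker.1 h3.2⟩, Int.cast_one]
    · rw [if_neg h3, if_neg fun h4 => h3 ⟨h4.1, MonoidHom.mem_ker.2 h4.2⟩, Int.cast_zero, ofAdd_zero]
  | (j, false) :: L, t => by
    have h1 : (FreeGroup.mk ((j, false) :: L) : FreeGroup ℕ) =
        (FreeGroup.of j)⁻¹ * FreeGroup.mk L := by
      rw [FreeGroup.of, FreeGroup.inv_mk, FreeGroup.mul_mk]; rfl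
    have ih := cw_left L (FreeGroup.of j * t)
    have e : (cw p h i (FreeGroup.of j)⁻¹).right⁻¹ * h t = h (FreeGroup.of j * t) := by
      rw [cw_right, _root_.map_inv, inv_inv, _root_.map_mul]
    rw [h1, _root_.map_mul, mul_left, Pi.mul_apply, e, ih, cK, Int.cast_add, ofAdd_add]
    congr 1
    have e2 : (cw p h i (FreeGroup.of j)⁻¹).left (h t) =
        ((cw p h i (FreeGroup.of j)).left (h (FreeGroup.of j * t)))⁻¹ := by
      rw [_root_.map_inv, inv_left]
      change ((cw p h i (FreeGroup.of j)).left ((cw p h i (FreeGroup.of j)).right * h t))⁻¹ = _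
      rw [cw_right, _root_.map_mul]
    rw [e2, cw_of_left]
    by_cases h3 : j = i ∧ FreeGroup.of j * t ∈ h.ker
    · rw [if_pos h3, if_pos ⟨h3.1, MonoidHom.mem_ker.1 h3.2⟩, Int.cast_neg, Int.cast_one, ofAdd_neg]
    · rw [if_neg h3, if_neg fun h4 => h3 ⟨h4.1, MonoidHom.mem_ker.2 h4.2⟩, Int.cast_zero,
        ofAdd_zero, inv_one]

end wreath

section path

variable {Q : Type} [Group Q] (g : ℕ → Q)

/-- the sum of the edges of a path -/
noncomputable def ps : List (ℕ × Bool) → Q → ((ℕ × Q) →₀ ℤ)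
  | [], _ => 0
  | (j, true) :: L, u => Finsupp.single (j, u) 1 + ps L (u * g j)
  | (j, false) :: L, u => Finsupp.single (j, u * (g j)⁻¹) (-1) + ps L (u * (g j)⁻¹)

end path

section sep

variable (R : Subgroup (FreeGroup ℕ)) [R.Normal]

/-- the generators of the quotient -/
def gq (j : ℕ) : FreeGroup ℕ ⧸ R := (FreeGroup.of j : FreeGroup ℕ)

theorem ps_apply (i : ℕ) : ∀ (L : List (ℕ × Bool)) (u : FreeGroup ℕ ⧸ R) (t : FreeGroup ℕ),
    ps (gq R) L u (i, u * (t : FreeGroup ℕ ⧸ R)) = cK R i L t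
  | [], u, t => by rw [ps, cK]; rfl
  | (j, true) :: L, u, t => by
    have ih := ps_apply i L (u * gq R j) ((FreeGroup.of j)⁻¹ * t)
    have e : u * gq R j * (((FreeGroup.of j)⁻¹ * t : FreeGroup ℕ) : FreeGroup ℕ ⧸ R) =
        u * (t : FreeGroup ℕ ⧸ R) := by
      rw [QuotientGroup.mk_mul, QuotientGroup.mk_inv, gq]; group
    rw [e] at ih
    rw [ps, cK, Finsupp.add_apply, ih]
    congr 1
    by_cases h : j = i ∧ t ∈ R
    · rw [if_pos h, (QuotientGroup.eq_one_iff t).2 h.2, mul_one, h.1, Finsupp.single_eq_same]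
    · rw [if_neg h, Finsupp.single_eq_of_ne]
      intro h2
      rw [Prod.mk.injEq] at h2
      refine h ⟨h2.1.symm, (QuotientGroup.eq_one_iff t).1 ?_⟩
      exact mul_eq_left.1 h2.2
  | (j, false) :: L, u, t => by
    have ih := ps_apply i L (u * (gq R j)⁻¹) (FreeGroup.of j * t)
    have e : u * (gq R j)⁻¹ * ((FreeGroup.of j * t : FreeGroup ℕ) : FreeGroup ℕ ⧸ R) =
        u * (t : FreeGroup ℕ ⧸ R) := by
      rw [QuotientGroup.mk_mul, gq]; group
    rw [e] at ih
    rw [ps, cK, Finsupp.add_apply, ih]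
    congr 1
    rw [← e]
    by_cases h : j = i ∧ FreeGroup.of j * t ∈ R
    · rw [if_pos h, (QuotientGroup.eq_one_iff _).2 h.2, mul_one, h.1, Finsupp.single_eq_same]
    · rw [if_neg h, Finsupp.single_eq_of_ne]
      intro h2
      rw [Prod.mk.injEq] at h2
      refine h ⟨h2.1.symm, (QuotientGroup.eq_one_iff _).1 ?_⟩
      exact mul_eq_left.1 h2.2

/-- **The path lemma.** -/
theorem eq_one_of_cK {E : Type} [Group E] (N : Subgroup E)
    (hN : ∀ x ∈ N, ∀ y ∈ N, x * y = y * x) (f : FreeGroup ℕ →* E)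
    (hR : ∀ x, x ∈ R ↔ f x ∈ N) (L : List (ℕ × Bool)) (hw : FreeGroup.mk L ∈ R)
    (h : ∀ i t, cK R i L t = 0) : f (FreeGroup.mk L) = 1 := by
  letI : CommGroup N := { (inferInstance : Group N) with
    mul_comm := fun a b => Subtype.ext (hN a a.2 b b.2) }
  set τ : FreeGroup ℕ ⧸ R → E := fun q => f q.out with hτ
  have hmem : ∀ (j : ℕ) (q : FreeGroup ℕ ⧸ R),
      τ q * f (FreeGroup.of j) * (τ (q * gq R j))⁻¹ ∈ N := by
    intro j q
    rw [hτ]
    simp only
    rw [← _root_.map_mul, ← _root_.map_inv, ← _root_.map_mul, ← hR, ← QuotientGroup.eq_one_iff,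
      QuotientGroup.mk_mul, QuotientGroup.mk_mul, QuotientGroup.mk_inv, QuotientGroup.out_eq',
      QuotientGroup.out_eq', gq, mul_inv_cancel]
  set ν : ℕ × (FreeGroup ℕ ⧸ R) → Additive N := fun e =>
    Additive.ofMul ⟨_, hmem e.1 e.2⟩ with hν
  set Φ : ((ℕ × (FreeGroup ℕ ⧸ R)) →₀ ℤ) →+ Additive N :=
    Finsupp.liftAddHom (fun e => zmultiplesHom (Additive N) (ν e)) with hΦ
  have hs : ∀ e n, Φ (Finsupp.single e n) = n • ν e := by
    intro e n
    rw [hΦ, Finsupp.liftAddHom_apply_single, zmultiplesHom_apply]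
  have key : ∀ (L : List (ℕ × Bool)) (u : FreeGroup ℕ ⧸ R),
      ((Additive.toMul (Φ (ps (gq R) L u)) : N) : E) =
        τ u * f (FreeGroup.mk L) * (τ (u * (FreeGroup.mk L : FreeGroup ℕ)))⁻¹ := by
    intro L
    induction L with
    | nil =>
      intro u
      change ((Additive.toMul (Φ (ps (gq R) [] u)) : N) : E) =
        τ u * f 1 * (τ (u * ((1 : FreeGroup ℕ) : FreeGroup ℕ ⧸ R)))⁻¹
      rw [ps, _root_.map_zero, _root_.map_one, QuotientGroup.mk_one, mul_one, mul_one,
        mul_inv_cancel]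
      rfl
    | cons a L ih =>
      intro u
      obtain ⟨j, b⟩ := a
      cases b with
      | true =>
        have h1 : (FreeGroup.mk ((j, true) :: L) : FreeGroup ℕ) =
            FreeGroup.of j * FreeGroup.mk L := by
          rw [FreeGroup.of, FreeGroup.mul_mk]; rfl
        rw [ps, _root_.map_add, toMul_add, Subgroup.coe_mul, ih, hs, one_smul, h1,
          _root_.map_mul, QuotientGroup.mk_mul, ← mul_assoc u]
        change τ u * f (FreeGroup.of j) * (τ (u * gq R j))⁻¹ * _ = _
        change _ * (τ (u * gq R j) * f (FreeGroup.mk L) * (τ (u * gq R j * _))⁻¹) =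
          τ u * (f (FreeGroup.of j) * f (FreeGroup.mk L)) * (τ (u * gq R j * _))⁻¹
        group
      | false =>
        have h1 : (FreeGroup.mk ((j, false) :: L) : FreeGroup ℕ) =
            (FreeGroup.of j)⁻¹ * FreeGroup.mk L := by
          rw [FreeGroup.of, FreeGroup.inv_mk, FreeGroup.mul_mk]; rfl
        rw [ps, _root_.map_add, toMul_add, Subgroup.coe_mul, ih, hs, neg_smul, one_smul, h1,
          _root_.map_mul, _root_.map_inv, QuotientGroup.mk_mul, QuotientGroup.mk_inv,
          ← mul_assoc u, toMul_neg, Subgroup.coe_inv]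
        change (τ (u * (gq R j)⁻¹) * f (FreeGroup.of j) * (τ (u * (gq R j)⁻¹ * gq R j))⁻¹)⁻¹ * _ = _
        change _ * (τ (u * (gq R j)⁻¹) * f (FreeGroup.mk L) * (τ (u * (gq R j)⁻¹ * _))⁻¹) =
          τ u * ((f (FreeGroup.of j))⁻¹ * f (FreeGroup.mk L)) * (τ (u * (gq R j)⁻¹ * _))⁻¹
        rw [inv_mul_cancel_right]
        group
  have hz : ps (gq R) L 1 = 0 := by
    ext ⟨i, q⟩
    obtain ⟨t, rfl⟩ := QuotientGroup.mk_surjective q
    have := ps_apply R i L 1 t
    rw [one_mul] at this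
    rw [this, h]
    rfl
  have hk := key L 1
  rw [hz, _root_.map_zero, one_mul, (QuotientGroup.eq_one_iff _).2 hw] at hk
  have hk2 : (1 : E) = τ 1 * f (FreeGroup.mk L) * (τ 1)⁻¹ := hk
  have := mul_inv_eq_one.1 hk2.symm
  exact mul_eq_left.1 this

end sep

end Y608.BUT
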