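import Mathlib
import Pool.Agent.Y608.BUT5

/-!
If the points of `F / R` are separated by torsion groups, then so are the points of `F / [R, R]`.
-/

set_option autoImplicit false

namespace Y608.BUT

open Pool.Agent.TH54.BU Pool.Agent.TH54.BU.Tors RegularWreathProduct
open scoped commutatorElement

universe u

/-- the points outside `R` are separated by torsion groups -/
def Sep (R : Subgroup (FreeGroup ℕ)) : Prop :=
  ∀ z, z ∉ R → ∃ (T : Type) (_ : Group T) (h : FreeGroup ℕ →* T),
    (∀ x : T, IsOfFinOrder x) ∧ R ≤ h.ker ∧ h z ≠ 1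

theorem sep_list {R : Subgroup (FreeGroup ℕ)} (hR : Sep R) : ∀ l : List (FreeGroup ℕ),
    ∃ (T : Type) (_ : Group T) (h : FreeGroup ℕ →* T),
      (∀ x : T, IsOfFinOrder x) ∧ R ≤ h.ker ∧ ∀ z ∈ l, z ∉ R → h z ≠ 1
  | [] => ⟨PUnit, inferInstance, 1, fun x => isOfFinOrder_of_finite x,
      fun x _ => by rw [MonoidHom.mem_ker], fun z hz => absurd hz List.not_mem_nil⟩
  | z :: l => by
    obtain ⟨T, _, h, h1, h2, h3⟩ := sep_list hR l
    by_cases hz : z ∈ R
    · refine ⟨T, inferInstance, h, h1, h2, ?_⟩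
      intro y hy hyR
      rcases List.mem_cons.1 hy with rfl | hy
      · exact absurd hz hyR
      · exact h3 y hy hyR
    · obtain ⟨T', _, h', h1', h2', h3'⟩ := hR z hz
      refine ⟨T × T', inferInstance, h.prod h', ?_, ?_, ?_⟩
      · rintro ⟨x, y⟩
        obtain ⟨n, hn, hx⟩ := isOfFinOrder_iff_pow_eq_one.1 (h1 x)
        obtain ⟨m, hm, hy⟩ := isOfFinOrder_iff_pow_eq_one.1 (h1' y)
        rw [isOfFinOrder_iff_pow_eq_one]
        refine ⟨n * m, Nat.mul_pos hn hm, ?_⟩
        rw [Prod.pow_mk, pow_mul, hx, one_pow, mul_comm n m, pow_mul, hy, one_pow]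
        rfl
      · intro x hx
        rw [MonoidHom.mem_ker, MonoidHom.prod_apply, MonoidHom.mem_ker.1 (h2 hx),
          MonoidHom.mem_ker.1 (h2' hx)]
        rfl
      · intro y hy hyR h4
        rw [MonoidHom.prod_apply, Prod.mk_eq_one] at h4
        rcases List.mem_cons.1 hy with rfl | hy
        · exact h3' h4.2
        · exact h3 y hy hyR h4.1

theorem torsion_cwr {T : Type} [Group T] (hT : ∀ x : T, IsOfFinOrder x) {p : ℕ} (hp : 0 < p)
    (x : RegularWreathProduct (Multiplicative (ZMod p)) T) : IsOfFinOrder x := by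
  obtain ⟨n, hn, hx⟩ := isOfFinOrder_iff_pow_eq_one.1 (hT x.right)
  have h1 : (x ^ n).right = 1 := by rw [pow_right, hx]
  rw [isOfFinOrder_iff_pow_eq_one]
  refine ⟨n * p, Nat.mul_pos hn hp, ?_⟩
  rw [pow_mul, eq_base h1, ← map_pow]
  have h2 : (x ^ n).left ^ p = 1 := by
    ext1 y
    rw [Pi.pow_apply, Pi.one_apply]
    change Multiplicative.ofAdd (p • Multiplicative.toAdd _) = 1
    rw [nsmul_eq_mul, ZMod.natCast_self, zero_mul]
    rfl
  rw [h2, map_one]

theorem commutator_self_le (R : Subgroup (FreeGroup ℕ)) : ⁅R, R⁆ ≤ R := by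
  rw [Subgroup.commutator_le]
  intro a ha b hb
  rw [commutatorElement_def]
  exact mul_mem (mul_mem (mul_mem ha hb) (inv_mem ha)) (inv_mem hb)

/-- **The step.** -/
theorem sep_step {R : Subgroup (FreeGroup ℕ)} [R.Normal] (hR : Sep R) : Sep ⁅R, R⁆ := by
  intro w hw
  by_cases hwR : w ∈ R
  · have hex : ∃ i t, cK R i w.toWord t ≠ 0 := by
      by_contra hno
      push Not at hno
      apply hw
      have hmk : FreeGroup.mk w.toWord = w := FreeGroup.mk_toWord
      have h1 := eq_one_of_cK R (R.map (QuotientGroup.mk' ⁅R, R⁆)) (by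
          rintro _ ⟨a, ha, rfl⟩ _ ⟨b, hb, rfl⟩
          rw [← map_mul, ← map_mul]
          refine (QuotientGroup.eq (s := ⁅R, R⁆)).2 ?_
          have := Subgroup.commutator_mem_commutator (inv_mem hb) (inv_mem ha)
          have e : (a * b)⁻¹ * (b * a) = ⁅b⁻¹, a⁻¹⁆ := by
            rw [commutatorElement_def]; group
          rw [e]
          exact this) (QuotientGroup.mk' ⁅R, R⁆) (by
          intro x
          constructor
          · exact fun hx => Subgroup.mem_map_of_mem _ hx
          · rintro ⟨y, hy, hxy⟩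
            have := commutator_self_le R ((QuotientGroup.eq (s := ⁅R, R⁆)).1 hxy)
            have h5 := mul_mem hy this
            rwa [mul_inv_cancel_left] at h5) w.toWord (by rw [hmk]; exact hwR) hno
      rw [hmk] at h1
      exact (QuotientGroup.eq_one_iff w).1 h1
    obtain ⟨i, t, hc⟩ := hex
    obtain ⟨T, _, h, h1, h2, h3⟩ := sep_list hR (tests w.toWord t)
    have hcK : cK h.ker i w.toWord t ≠ 0 := by
      rw [← cK_congr R h.ker i w.toWord t]
      · exact hc
      · intro z hz
        constructor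
        · exact fun hzR => h2 hzR
        · intro hzk
          by_contra hzR
          exact h3 z hz hzR (MonoidHom.mem_ker.1 hzk)
    obtain ⟨p, hp1, hp2⟩ := Nat.exists_infinite_primes ((cK h.ker i w.toWord t).natAbs + 1)
    refine ⟨RegularWreathProduct (Multiplicative (ZMod p)) T, inferInstance, cw p h i,
      torsion_cwr h1 hp2.pos, ?_, ?_⟩
    · rw [Subgroup.commutator_le]
      intro a ha b hb
      rw [MonoidHom.mem_ker, map_commutatorElement, commutatorElement_eq_one_iff_mul_comm]
      have ea : (cw p h i a).right = 1 := by rw [cw_right]; exact MonoidHom.mem_ker.1 (h2 ha)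
      have eb : (cw p h i b).right = 1 := by rw [cw_right]; exact MonoidHom.mem_ker.1 (h2 hb)
      rw [eq_base ea, eq_base eb, ← map_mul, ← map_mul, mul_comm]
    · intro h4
      have h5 := cw_left p h i w.toWord t
      rw [FreeGroup.mk_toWord, h4] at h5
      have h6 : (((cK h.ker i w.toWord t : ℤ) : ZMod p)) = 0 := h5.symm
      rw [ZMod.intCast_zmod_eq_zero_iff_dvd] at h6
      have h7 := Nat.le_of_dvd (Int.natAbs_pos.2 hcK) (Int.natCast_dvd.1 h6)
      omega
  · obtain ⟨T, _, h, h1, h2, h3⟩ := hR w hwR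
    exact ⟨T, inferInstance, h, h1, (commutator_self_le R).trans h2, h3⟩

end Y608.BUT
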