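import Mathlib
import Pool.Agent.Y608.BUT6

/-!
For every nontrivial word `v` and every `d` there is a finitely generated torsion group with a
nontrivial law whose variety contains all extensions of soluble groups of derived length at most
`d` by residually torsion groups satisfying `v`.
-/

set_option autoImplicit false

namespace Y608.BUT

open Pool.Agent.TH54.BU Pool.Agent.TH54.BU.Tors RegularWreathProduct
open scoped commutatorElement

universe u

section ne

/-- the action of the free group on itself with an additional fixed point -/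
noncomputable def ρo : FreeGroup ℕ →* Equiv.Perm (Option (FreeGroup ℕ)) :=
  MulAction.toPermHom (FreeGroup ℕ) (Option (FreeGroup ℕ))

theorem ρo_none (u : FreeGroup ℕ) : ρo u none = none := rfl

theorem ρo_some (u x : FreeGroup ℕ) : ρo u (some x) = some (u * x) := rfl

/-- the endomorphisms to the even and to the odd letters -/
def ev (b : ℕ) : FreeGroup ℕ →* FreeGroup ℕ := FreeGroup.lift fun i => FreeGroup.of (2 * i + b)

theorem comm_ne {u : FreeGroup ℕ} (hu : u ≠ 1) : ⁅ev 0 u, ev 1 u⁆ ≠ 1 := by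
  classical
  intro h
  set σ : Equiv.Perm (Option (FreeGroup ℕ)) := Equiv.swap (some u) none with hσ
  set Θ : FreeGroup ℕ →* Equiv.Perm (Option (FreeGroup ℕ)) := FreeGroup.lift fun j =>
    if j % 2 = 0 then ρo (FreeGroup.of (j / 2)) else σ * ρo (FreeGroup.of (j / 2)) * σ⁻¹ with hΘ
  have h0 : Θ.comp (ev 0) = ρo := by
    apply FreeGroup.ext_hom
    intro i
    rw [MonoidHom.comp_apply, ev, FreeGroup.lift_apply_of, hΘ, FreeGroup.lift_apply_of,
      if_pos (by omega), show (2 * i + 0) / 2 = i by omega]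
  have h1 : Θ.comp (ev 1) = (MulAut.conj σ).toMonoidHom.comp ρo := by
    apply FreeGroup.ext_hom
    intro i
    rw [MonoidHom.comp_apply, ev, FreeGroup.lift_apply_of, hΘ, FreeGroup.lift_apply_of,
      if_neg (by omega), show (2 * i + 1) / 2 = i by omega]
    rfl
  have h2 := congrArg Θ h
  rw [map_commutatorElement, map_one, ← MonoidHom.comp_apply, ← MonoidHom.comp_apply, h0, h1,
    commutatorElement_eq_one_iff_mul_comm, MonoidHom.comp_apply] at h2
  have h3 : ρo u * (σ * ρo u * σ⁻¹) = (σ * ρo u * σ⁻¹) * ρo u := h2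
  have h4 := congrArg (fun π : Equiv.Perm (Option (FreeGroup ℕ)) => π (some 1)) h3
  have e1 : σ⁻¹ (some 1) = some 1 := by
    rw [hσ, Equiv.swap_inv]
    exact Equiv.swap_apply_of_ne_of_ne (by simpa using hu.symm) (by simp)
  have e2 : σ⁻¹ (some u) = none := by
    rw [hσ, Equiv.swap_inv]
    exact Equiv.swap_apply_left _ _
  have e3 : σ (some u) = none := Equiv.swap_apply_left _ _
  have e4 : σ none = some u := Equiv.swap_apply_right _ _
  have h5 : ρo u (σ (ρo u (σ⁻¹ (some 1)))) = σ (ρo u (σ⁻¹ (ρo u (some 1)))) := h4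
  rw [e1, ρo_some, mul_one, e3, e2, ρo_none, e4] at h5
  exact absurd h5 (by simp)

end ne

/-- the common laws of all torsion groups satisfying `v` -/
def R0 (v : FreeGroup ℕ) : Subgroup (FreeGroup ℕ) where
  carrier := {u | ∀ (T : Type) [Group T], (∀ x : T, IsOfFinOrder x) →
    (∀ f : FreeGroup ℕ →* T, f v = 1) → ∀ f : FreeGroup ℕ →* T, f u = 1}
  one_mem' := fun T _ _ _ f => map_one f
  mul_mem' := by
    intro a b ha hb T _ h1 h2 f
    rw [map_mul, ha T h1 h2 f, hb T h1 h2 f, one_mul]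
  inv_mem' := by
    intro a ha T _ h1 h2 f
    rw [map_inv, ha T h1 h2 f, inv_one]

/-- its derived series -/
def Rk (v : FreeGroup ℕ) : ℕ → Subgroup (FreeGroup ℕ)
  | 0 => R0 v
  | k + 1 => ⁅Rk v k, Rk v k⁆

theorem Rk_normal (v : FreeGroup ℕ) : ∀ k, (Rk v k).Normal
  | 0 => by
    refine ⟨?_⟩
    intro n hn g T _ h1 h2 f
    rw [map_mul, map_mul, hn T h1 h2 f, mul_one, ← map_mul, mul_inv_cancel, map_one]
  | k + 1 => by
    haveI := Rk_normal v k
    change (⁅Rk v k, Rk v k⁆).Normal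
    infer_instance

theorem Rk_map (v : FreeGroup ℕ) (φ : FreeGroup ℕ →* FreeGroup ℕ) :
    ∀ k, (Rk v k).map φ ≤ Rk v k
  | 0 => by
    rintro _ ⟨u, hu, rfl⟩ T _ h1 h2 f
    exact hu T h1 h2 (f.comp φ)
  | k + 1 => by
    change (⁅Rk v k, Rk v k⁆).map φ ≤ ⁅Rk v k, Rk v k⁆
    rw [Subgroup.map_commutator]
    exact Subgroup.commutator_mono (Rk_map v φ k) (Rk_map v φ k)

theorem sep_Rk (v : FreeGroup ℕ) : ∀ k, Sep (Rk v k)
  | 0 => by
    intro z hz
    by_contra hno
    apply hz
    intro T _ h1 h2 f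
    by_contra hf
    exact hno ⟨T, inferInstance, f, h1, fun u hu => MonoidHom.mem_ker.2 (hu T h1 h2 f), hf⟩
  | k + 1 => by
    haveI := Rk_normal v k
    exact sep_step (sep_Rk v k)

theorem Rk_ne {v : FreeGroup ℕ} (hv : v ≠ 1) : ∀ k, ∃ u ∈ Rk v k, u ≠ 1
  | 0 => ⟨v, fun T _ _ h2 f => h2 f, hv⟩
  | k + 1 => by
    obtain ⟨u, hu, hne⟩ := Rk_ne hv k
    exact ⟨_, Subgroup.commutator_mem_commutator
      (Rk_map v (ev 0) k (Subgroup.mem_map_of_mem _ hu))
      (Rk_map v (ev 1) k (Subgroup.mem_map_of_mem _ hu)), comm_ne hne⟩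

/-- homomorphisms to a quotient of the free group lift -/
theorem exists_lift {T : Type} [Group T] {h : FreeGroup ℕ →* T} (hs : Function.Surjective h)
    (f : FreeGroup ℕ →* T) : ∃ φ : FreeGroup ℕ →* FreeGroup ℕ, f = h.comp φ := by
  choose g hg using fun j : ℕ => hs (f (FreeGroup.of j))
  refine ⟨FreeGroup.lift g, ?_⟩
  apply FreeGroup.ext_hom
  intro j
  rw [MonoidHom.comp_apply, FreeGroup.lift_apply_of]
  exact (hg j).symm

theorem mem_Rk_of_law {v : FreeGroup ℕ} {d : ℕ} {w v' : FreeGroup ℕ} (hv' : v' ∈ Rk v d)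
    (hw : ∀ (H : Type) [Group H], ResTorsion H → (∀ f : FreeGroup ℕ →* H, f v' = 1) →
      ∀ f : FreeGroup ℕ →* H, f w = 1) : w ∈ Rk v d := by
  by_contra hno
  obtain ⟨T, _, h, h1, h2, h3⟩ := sep_Rk v d w hno
  have h4 := hw h.range (ResTorsion.of_torsion fun x => by
      rw [sub_fin]; exact h1 _) (by
      intro f
      obtain ⟨φ, rfl⟩ := exists_lift h.rangeRestrict_surjective f
      apply Subtype.ext
      exact MonoidHom.mem_ker.1 (h2 (Rk_map v φ d (Subgroup.mem_map_of_mem _ hv')))) h.rangeRestrict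
  exact h3 (congrArg Subtype.val h4)

theorem map_Rk_le {v : FreeGroup ℕ} {H : Type u} [Group H] (N : Subgroup H) [N.Normal]
    (hN : ResTorsion (H ⧸ N)) (hv : ∀ f : FreeGroup ℕ →* H ⧸ N, f v = 1)
    (f : FreeGroup ℕ →* H) : ∀ k, (Rk v k).map f ≤ (derivedSeries N k).map N.subtype
  | 0 => by
    rintro _ ⟨u, hu, rfl⟩
    rw [derivedSeries_zero, ← MonoidHom.range_eq_map, N.range_subtype]
    by_contra hno
    have hne : ((f u : H) : H ⧸ N) ≠ 1 := fun h => hno ((QuotientGroup.eq_one_iff _).1 h)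
    obtain ⟨K, hK, hK1, hK2⟩ := hN _ hne
    haveI := hK
    set M : Subgroup (FreeGroup ℕ) := K.comap ((QuotientGroup.mk' N).comp f) with hM
    have h1 := hu (FreeGroup ℕ ⧸ M) (by
        intro x
        obtain ⟨y, rfl⟩ := QuotientGroup.mk_surjective x
        obtain ⟨n, hn, hy⟩ := hK2 ((QuotientGroup.mk' N).comp f y)
        rw [isOfFinOrder_iff_pow_eq_one]
        refine ⟨n, hn, ?_⟩
        rw [← QuotientGroup.mk_pow, QuotientGroup.eq_one_iff, hM, Subgroup.mem_comap, map_pow]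
        exact hy) (by
        intro g
        obtain ⟨φ, rfl⟩ := exists_lift (QuotientGroup.mk'_surjective M) g
        refine (QuotientGroup.eq_one_iff _).2 ?_
        rw [hM, Subgroup.mem_comap]
        have := hv (((QuotientGroup.mk' N).comp f).comp φ)
        rw [MonoidHom.comp_apply] at this
        rw [this]
        exact one_mem _) (QuotientGroup.mk' M)
    have h7 : u ∈ M := (QuotientGroup.eq_one_iff u).1 h1
    exact hK1 h7
  | k + 1 => by
    change (⁅Rk v k, Rk v k⁆).map f ≤ _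
    rw [Subgroup.map_commutator, derivedSeries_succ, Subgroup.map_commutator]
    exact Subgroup.commutator_mono (map_Rk_le N hN hv f k) (map_Rk_le N hN hv f k)

/-- **Extensions of soluble groups by residually torsion groups.** -/
theorem main_sol {B : Type} [Group B] (hB : Infinite B) (hfg : Group.FG B) {q : ℕ}
    (hq : 0 < q) (hexp : ∀ b : B, b ^ q = 1) (v : FreeGroup ℕ) (hv : v ≠ 1) (d : ℕ) :
    ∃ (G : Type) (_ : Group G), Group.FG G ∧ (∀ g : G, IsOfFinOrder g) ∧
      (∃ w : FreeGroup ℕ, w ≠ 1 ∧ ∀ f : FreeGroup ℕ →* G, f w = 1) ∧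
      ∀ w : FreeGroup ℕ, (∀ f : FreeGroup ℕ →* G, f w = 1) →
        ∀ (H : Type u) [Group H] (N : Subgroup H) [N.Normal], derivedSeries N d = ⊥ →
          ResTorsion (H ⧸ N) → (∀ f : FreeGroup ℕ →* H ⧸ N, f v = 1) →
          ∀ f : FreeGroup ℕ →* H, f w = 1 := by
  obtain ⟨v', hv', hne⟩ := Rk_ne hv d
  obtain ⟨G, _, h1, h2, h3, h4⟩ := main.{0} hB hfg hq hexp v' hne
  refine ⟨G, inferInstance, h1, h2, h3, ?_⟩
  intro w hw H _ N _ hd hN hNv f
  have h5 : w ∈ Rk v d := mem_Rk_of_law hv' (fun H _ hH hHv => h4 w hw H hH hHv)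
  have h6 := map_Rk_le N hN hNv f d (Subgroup.mem_map_of_mem _ h5)
  rw [hd, Subgroup.map_bot] at h6
  exact Subgroup.mem_bot.1 h6

end Y608.BUT
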