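import Mathlib
import Pool.Agent.Y608.BUT7

/-!
A nontrivial fully invariant subgroup of the free group contains a free group of infinite rank.
-/

set_option autoImplicit false

namespace Y608.BUT

open Pool.Agent.TH54.BU Pool.Agent.TH54.BU.Tors RegularWreathProduct
open scoped commutatorElement

universe u

/-- the subgroup of the words in the letters below `m` -/
def low (m : ℕ) : Subgroup (FreeGroup ℕ) :=
  Subgroup.closure {x | ∃ i, i < m ∧ x = FreeGroup.of i}

theorem low_mono {m n : ℕ} (h : m ≤ n) : low m ≤ low n := by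
  apply Subgroup.closure_mono
  rintro x ⟨i, hi, rfl⟩
  exact ⟨i, lt_of_lt_of_le hi h, rfl⟩

theorem exists_low (x : FreeGroup ℕ) : ∃ m, x ∈ low m := by
  induction x using FreeGroup.induction_on with
  | C1 => exact ⟨0, one_mem _⟩
  | of i => exact ⟨i + 1, Subgroup.subset_closure ⟨i, Nat.lt_succ_self i, rfl⟩⟩
  | inv_of i ih => obtain ⟨m, hm⟩ := ih; exact ⟨m, inv_mem hm⟩
  | mul x y hx hy =>
    obtain ⟨m, hm⟩ := hx
    obtain ⟨n, hn⟩ := hy
    exact ⟨max m n, mul_mem (low_mono (le_max_left _ _) hm) (low_mono (le_max_right _ _) hn)⟩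

theorem exists_low_finset (s : Finset (FreeGroup ℕ)) : ∃ m, ∀ x ∈ s, x ∈ low m := by
  classical
  induction s using Finset.induction_on with
  | empty => exact ⟨0, fun x hx => absurd hx (Finset.notMem_empty x)⟩
  | insert a s _ ih =>
    obtain ⟨m, hm⟩ := ih
    obtain ⟨n, hn⟩ := exists_low a
    refine ⟨max m n, fun x hx => ?_⟩
    rcases Finset.mem_insert.1 hx with rfl | hx
    · exact low_mono (le_max_right _ _) hn
    · exact low_mono (le_max_left _ _) (hm x hx)

/-- a nontrivial normal subgroup is not contained in `low m` -/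
theorem not_le_low {S : Subgroup (FreeGroup ℕ)} [S.Normal] {u : FreeGroup ℕ} (hu : u ∈ S)
    (hne : u ≠ 1) (m : ℕ) : ¬ S ≤ low m := by
  classical
  intro hle
  set σ : Equiv.Perm (Option (FreeGroup ℕ)) := Equiv.swap (some u) none with hσ
  set Θ : FreeGroup ℕ →* Equiv.Perm (Option (FreeGroup ℕ)) := FreeGroup.lift fun j =>
    if j = m then σ else ρo (FreeGroup.of j) with hΘ
  have h1 : ∀ x ∈ low m, Θ x = ρo x := by
    intro x hx
    induction hx using Subgroup.closure_induction with
    | mem x hx =>
      obtain ⟨i, hi, rfl⟩ := hx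
      rw [hΘ, FreeGroup.lift_apply_of, if_neg (by omega)]
    | one => rw [map_one, map_one]
    | mul x y _ _ hx hy => rw [map_mul, map_mul, hx, hy]
    | inv x _ hx => rw [map_inv, map_inv, hx]
  have h2 : FreeGroup.of m * u * (FreeGroup.of m)⁻¹ ∈ S :=
    Subgroup.Normal.conj_mem inferInstance u hu _
  have h3 := h1 _ (hle h2)
  rw [map_mul, map_mul, map_inv, h1 u (hle hu)] at h3
  have h4 : Θ (FreeGroup.of m) = σ := by rw [hΘ, FreeGroup.lift_apply_of, if_pos rfl]
  rw [h4] at h3
  have h5 := congrArg (fun π : Equiv.Perm (Option (FreeGroup ℕ)) => π none) h3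
  have e0 : σ⁻¹ none = some u := by
    rw [hσ, Equiv.swap_inv]
    exact Equiv.swap_apply_right _ _
  have h6 : σ (ρo u (σ⁻¹ none)) = ρo (FreeGroup.of m * u * (FreeGroup.of m)⁻¹) none := h5
  rw [e0, ρo_some, ρo_none] at h6
  have e1 : σ (some (u * u)) = some (u * u) := by
    refine Equiv.swap_apply_of_ne_of_ne ?_ (by simp)
    intro h7
    exact hne (mul_eq_left.1 (Option.some_injective _ h7))
  rw [e1] at h6
  exact absurd h6 (by simp)

/-- **Free subgroups of infinite rank.** -/
theorem exists_inj {S : Subgroup (FreeGroup ℕ)} [S.Normal] {u : FreeGroup ℕ} (hu : u ∈ S)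
    (hne : u ≠ 1) : ∃ φ : FreeGroup ℕ →* FreeGroup ℕ, Function.Injective φ ∧ ∀ x, φ x ∈ S := by
  classical
  set X := IsFreeGroup.Generators S with hX
  have hinf : Infinite X := by
    by_contra hfin
    rw [not_infinite_iff_finite] at hfin
    haveI := Fintype.ofFinite X
    set s : Finset (FreeGroup ℕ) :=
      Finset.univ.image fun x : X => ((IsFreeGroup.of x : S) : FreeGroup ℕ) with hs
    obtain ⟨m, hm⟩ := exists_low_finset s
    refine not_le_low hu hne m ?_
    intro y hy
    have key : ∀ z : FreeGroup X, (((IsFreeGroup.toFreeGroup S).symm z : S) : FreeGroup ℕ) ∈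
        low m := by
      intro z
      induction z using FreeGroup.induction_on with
      | C1 => rw [map_one]; exact one_mem _
      | of x => exact hm _ (by rw [hs]; exact Finset.mem_image_of_mem _ (Finset.mem_univ x))
      | inv_of x ih => rw [map_inv]; exact inv_mem ih
      | mul x y hx hy => rw [map_mul]; exact mul_mem hx hy
    have h1 := key (IsFreeGroup.toFreeGroup S ⟨y, hy⟩)
    rw [MulEquiv.symm_apply_apply] at h1
    exact h1
  obtain ⟨e⟩ : Nonempty (ℕ ↪ X) := ⟨Infinite.natEmbedding X⟩
  refine ⟨S.subtype.comp ((IsFreeGroup.toFreeGroup S).symm.toMonoidHom.comp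
    (FreeGroup.map e)), ?_, ?_⟩
  · intro a b hab
    have h1 := Subtype.ext_iff.2 hab
    have h2 := (IsFreeGroup.toFreeGroup S).symm.injective h1
    exact FreeGroup.map_injective e.injective h2
  · intro x
    exact Subtype.property _

end Y608.BUT
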