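import Mathlib
import Pool.Agent.Y608.BUT8

/-!
Products of varieties generated by torsion groups.
-/

set_option autoImplicit false

namespace Y608.BUT

open Pool.Agent.TH54.BU Pool.Agent.TH54.BU.Tors RegularWreathProduct
open scoped commutatorElement

universe u

/-- the Kaluzhnin-Krasner embedding -/
noncomputable def kku {H : Type u} [Group H] (N : Subgroup H) [N.Normal] :
    H →* RegularWreathProduct N (H ⧸ N) :=
  MonoidHom.mk' (fun k => ⟨fun q => ⟨q.out⁻¹ * k * ((k : H ⧸ N)⁻¹ * q).out, by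
    rw [← QuotientGroup.eq_one_iff, QuotientGroup.mk_mul, QuotientGroup.mk_mul,
      QuotientGroup.mk_inv, QuotientGroup.out_eq', QuotientGroup.out_eq']
    group⟩, (k : H ⧸ N)⟩) (by
    intro a b
    ext q
    · simp only [RegularWreathProduct.mul_left, Pi.mul_apply, Subgroup.coe_mul,
        QuotientGroup.mk_mul, mul_inv_rev, mul_assoc, mul_inv_cancel_left]
    · rfl)

theorem kku_inj {H : Type u} [Group H] (N : Subgroup H) [N.Normal] (k : H) (h : kku N k = 1) :
    k = 1 := by
  have h1 : (k : H ⧸ N) = 1 := congrArg RegularWreathProduct.right h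
  have h2 : (((kku N k).left 1 : N) : H) = 1 := by rw [h]; rfl
  have h3 : (((kku N k).left 1 : N) : H)
      = (1 : H ⧸ N).out⁻¹ * k * ((k : H ⧸ N)⁻¹ * 1).out := rfl
  rw [h3, h1, inv_one, mul_one] at h2
  have h4 := congrArg (fun t => (1 : H ⧸ N).out * t * (1 : H ⧸ N).out⁻¹) h2
  simpa [mul_assoc] using h4

/-- the laws of a group -/
def laws (G : Type u) [Group G] : Subgroup (FreeGroup ℕ) where
  carrier := {u | ∀ f : FreeGroup ℕ →* G, f u = 1}
  one_mem' := fun f => map_one f
  mul_mem' := by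
    intro a b ha hb f
    rw [map_mul, ha f, hb f, one_mul]
  inv_mem' := by
    intro a ha f
    rw [map_inv, ha f, inv_one]

instance (G : Type u) [Group G] : (laws G).Normal := by
  refine ⟨?_⟩
  intro n hn g f
  rw [map_mul, map_mul, hn f, mul_one, ← map_mul, mul_inv_cancel, map_one]

/-- the restricted wreath product -/
def rwr (T Q : Type) [Group T] [Group Q] : Subgroup (RegularWreathProduct T Q) where
  carrier := {g | {s | g.left s ≠ 1}.Finite}
  one_mem' := by
    have : {s : Q | (1 : RegularWreathProduct T Q).left s ≠ 1} = ∅ := by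
      ext s; simp
    change Set.Finite _
    rw [this]
    exact Set.finite_empty
  mul_mem' := by
    intro a b ha hb
    refine Set.Finite.subset (Set.Finite.union ha (Set.Finite.image (fun s => a.right * s) hb)) ?_
    intro s hs
    by_contra hno
    rw [Set.mem_union, not_or] at hno
    obtain ⟨h1, h2⟩ := hno
    have h1' : a.left s = 1 := not_not.1 h1
    have h2' : b.left (a.right⁻¹ * s) = 1 := by
      by_contra h3
      exact h2 ⟨a.right⁻¹ * s, h3, mul_inv_cancel_left _ _⟩
    apply hs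
    rw [mul_left, Pi.mul_apply, h1', one_mul]
    exact h2'
  inv_mem' := by
    intro a ha
    refine Set.Finite.subset (Set.Finite.image (fun s => a.right⁻¹ * s) ha) ?_
    intro s hs
    refine ⟨a.right * s, fun h => hs ?_, inv_mul_cancel_left _ _⟩
    rw [inv_left]
    change (a.left (a.right * s))⁻¹ = 1
    rw [h, inv_one]

theorem torsion_rwr {T Q : Type} [Group T] [Group Q] (hT : ∀ x : T, IsOfFinOrder x)
    (hQ : ∀ x : Q, IsOfFinOrder x) (x : rwr T Q) : IsOfFinOrder x := by
  classical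
  rw [sub_fin]
  obtain ⟨x, hx⟩ := x
  obtain ⟨n, hn, hxn⟩ := isOfFinOrder_iff_pow_eq_one.1 (hQ x.right)
  have h1 : (x ^ n).right = 1 := by rw [pow_right, hxn]
  have h2 : {s | (x ^ n).left s ≠ 1}.Finite := pow_mem hx n
  set m := ∏ s ∈ h2.toFinset, orderOf ((x ^ n).left s) with hm
  have h4 : (x ^ n).left ^ m = 1 := by
    ext1 s
    rw [Pi.pow_apply, Pi.one_apply]
    by_cases hs : (x ^ n).left s = 1
    · rw [hs, one_pow]
    · exact orderOf_dvd_iff_pow_eq_one.1
        (Finset.dvd_prod_of_mem (fun s => orderOf ((x ^ n).left s)) (h2.mem_toFinset.2 hs))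
  have h5 : (x ^ n) ^ m = base ((x ^ n).left ^ m) := by rw [map_pow, ← eq_base h1]
  rw [isOfFinOrder_iff_pow_eq_one]
  refine ⟨n * m, Nat.mul_pos hn (Finset.prod_pos fun s _ => (hT _).orderOf_pos), ?_⟩
  change x ^ _ = 1
  rw [pow_mul, h5, h4, map_one]

/-- laws of the restricted wreath product -/
theorem law_rwr {T Q : Type} [Group T] [Group Q] {S : Subgroup (FreeGroup ℕ)}
    (hS : ∀ f : FreeGroup ℕ →* Q, ∀ x ∈ S, f x = 1) {φ : FreeGroup ℕ →* FreeGroup ℕ}
    (hφ : ∀ x, φ x ∈ S) {v : FreeGroup ℕ} (hv : ∀ f : FreeGroup ℕ →* T, f v = 1)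
    (f : FreeGroup ℕ →* RegularWreathProduct T Q) : f (φ v) = 1 := by
  have h1 : ∀ x, (f (φ x)).right = 1 := fun x =>
    hS ((rightHom : RegularWreathProduct T Q →* Q).comp f) _ (hφ x)
  ext s
  · let g : FreeGroup ℕ →* T := MonoidHom.mk' (fun x => (f (φ x)).left s) (by
      intro a b
      rw [map_mul, map_mul, mul_left, Pi.mul_apply, h1, inv_one, one_mul])
    exact hv g
  · exact h1 v

/-- finitely many points outside the laws of `Q` are separated by a power of `Q` -/
theorem sep_laws {Q : Type} [Group Q] (hQ : ∀ x : Q, IsOfFinOrder x) :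
    ∀ l : List (FreeGroup ℕ), ∃ (T : Type) (_ : Group T) (h : FreeGroup ℕ →* T),
      (∀ x : T, IsOfFinOrder x) ∧ (∀ f : FreeGroup ℕ →* T, ∀ x ∈ laws Q, f x = 1) ∧
        ∀ z ∈ l, z ∉ laws Q → h z ≠ 1
  | [] => ⟨PUnit, inferInstance, 1, fun x => isOfFinOrder_of_finite x,
      fun f x _ => Subsingleton.elim _ _, fun z hz => absurd hz List.not_mem_nil⟩
  | z :: l => by
    obtain ⟨T, _, h, h1, h2, h3⟩ := sep_laws hQ l
    by_cases hz : z ∈ laws Q
    · refine ⟨T, inferInstance, h, h1, h2, ?_⟩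
      intro y hy hyR
      rcases List.mem_cons.1 hy with rfl | hy
      · exact absurd hz hyR
      · exact h3 y hy hyR
    · have hz2 : ¬ ∀ f : FreeGroup ℕ →* Q, f z = 1 := hz
      push Not at hz2
      obtain ⟨h', h3'⟩ := hz2
      refine ⟨T × Q, inferInstance, h.prod h', ?_, ?_, ?_⟩
      · rintro ⟨x, y⟩
        obtain ⟨n, hn, hx⟩ := isOfFinOrder_iff_pow_eq_one.1 (h1 x)
        obtain ⟨m, hm, hy⟩ := isOfFinOrder_iff_pow_eq_one.1 (hQ y)
        rw [isOfFinOrder_iff_pow_eq_one]
        refine ⟨n * m, Nat.mul_pos hn hm, ?_⟩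
        rw [Prod.pow_mk, pow_mul, hx, one_pow, mul_comm n m, pow_mul, hy, one_pow]
        rfl
      · intro f x hx
        ext
        · exact h2 ((MonoidHom.fst T Q).comp f) x hx
        · exact hx ((MonoidHom.snd T Q).comp f)
      · intro y hy hyR h4
        rw [MonoidHom.prod_apply, Prod.mk_eq_one] at h4
        rcases List.mem_cons.1 hy with rfl | hy
        · exact h3' h4.2
        · exact h3 y hy hyR h4.1

end Y608.BUT
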