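import Mathlib
import Pool.Agent.Y608.BUT9

/-!
The product of two proper varieties generated by torsion groups is contained in the proper variety
generated by one finitely generated torsion group.
-/

set_option autoImplicit false

namespace Y608.BUT

open Pool.Agent.TH54.BU Pool.Agent.TH54.BU.Tors RegularWreathProduct
open scoped commutatorElement

universe u

theorem hom_mk_left {N Q : Type u} [Group N] [Group Q]
    (g : FreeGroup ℕ →* RegularWreathProduct N Q) (L : List (ℕ × Bool)) (x : Q) :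
    (g (FreeGroup.mk L)).left x =
      bval (fun i => (g (FreeGroup.of i)).left) (fun i => (g (FreeGroup.of i)).right) L x := by
  have : g = FreeGroup.lift (fun i => (⟨(g (FreeGroup.of i)).left, (g (FreeGroup.of i)).right⟩ :
      RegularWreathProduct N Q)) := by
    apply FreeGroup.ext_hom
    intro i
    rw [FreeGroup.lift_apply_of]
  conv_lhs => rw [this]
  exact lift_left _ _ L x

/-- **Products.** A word which is a law of all torsion groups in the class `𝒦` of the restricted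
wreath products of `G₁` with the torsion groups of the variety of `G₂` is a law of all extensions
of groups of the variety of `G₁` by groups of the variety of `G₂`. -/
theorem prod_law {G₁ G₂ : Type} [Group G₁] [Group G₂] (h₂ : ∀ x : G₂, IsOfFinOrder x)
    (w : FreeGroup ℕ) (hw2 : w ∈ laws G₂)
    (hw : ∀ (T : Type) [Group T], (∀ x : T, IsOfFinOrder x) →
      (∀ f : FreeGroup ℕ →* T, ∀ x ∈ laws G₂, f x = 1) →
      ∀ f : FreeGroup ℕ →* rwr G₁ T, f w = 1)
    {H : Type u} [Group H] (N : Subgroup H) [N.Normal] (hN : laws G₁ ≤ laws N)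
    (hQ : laws G₂ ≤ laws (H ⧸ N)) (f : FreeGroup ℕ →* H) : f w = 1 := by
  classical
  by_contra hne
  set L := w.toWord with hL
  have hwL : FreeGroup.mk L = w := FreeGroup.mk_toWord
  set g : FreeGroup ℕ →* RegularWreathProduct N (H ⧸ N) := (kku N).comp f with hg
  set fb : FreeGroup ℕ →* H ⧸ N := (QuotientGroup.mk' N).comp f with hfb
  have hgr : ∀ x, (g x).right = fb x := fun x => rfl
  have h1 : g w ≠ 1 := fun h => hne (kku_inj N _ h)
  obtain ⟨x, hx⟩ : ∃ x, (g w).left x ≠ 1 := by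
    by_contra hno
    push Not at hno
    apply h1
    ext y
    · rw [hno y]; rfl
    · rw [hgr, hQ hw2 fb]; rfl
  rw [← hwL, hom_mk_left] at hx
  -- pull back to the free group
  set c : ℕ → FreeGroup ℕ → N := fun i y => (g (FreeGroup.of i)).left (fb y * x) with hc
  have hx2 : bval c FreeGroup.of L 1 ≠ 1 := by
    have := bval_pull fb (MonoidHom.id N) (fun i => (g (FreeGroup.of i)).left) FreeGroup.of x L 1
    rw [map_one, one_mul] at this
    intro h
    apply hx
    exact this.symm.trans h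
  set S := laws G₂ with hS
  haveI := countable_free
  haveI : Countable (ℕ × (FreeGroup ℕ ⧸ S)) :=
    haveI : Countable (FreeGroup ℕ ⧸ S) := (QuotientGroup.mk_surjective (s := S)).countable
    inferInstance
  obtain ⟨e, he⟩ := exists_injective_nat (ℕ × (FreeGroup ℕ ⧸ S))
  have hcS : ∀ i y, c i y = c i (y : FreeGroup ℕ ⧸ S).out := by
    intro i y
    have h2 : y⁻¹ * (y : FreeGroup ℕ ⧸ S).out ∈ S := by
      rw [← QuotientGroup.eq, QuotientGroup.out_eq']
    have h3 : fb y = fb (y : FreeGroup ℕ ⧸ S).out := by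
      have := hQ h2 fb
      rw [map_mul, map_inv, inv_mul_eq_one] at this
      exact this
    rw [hc]
    simp only
    rw [h3]
  set χ : FreeGroup ℕ →* N :=
    FreeGroup.lift (Function.extend e (fun p : ℕ × (FreeGroup ℕ ⧸ S) => c p.1 p.2.out) 1) with hχ
  have hχe : ∀ i (y : FreeGroup ℕ), χ (FreeGroup.of (e (i, (y : FreeGroup ℕ ⧸ S)))) = c i y := by
    intro i y
    rw [hχ, FreeGroup.lift_apply_of, he.extend_apply, hcS i y]
  set U : FreeGroup ℕ :=
    bval (fun i (y : FreeGroup ℕ) => FreeGroup.of (e (i, (y : FreeGroup ℕ ⧸ S)))) FreeGroup.of L 1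
    with hU
  have hpush : ∀ {T : Type u} [Group T] (ψ : FreeGroup ℕ →* T),
      bval (fun i (y : FreeGroup ℕ) => ψ (FreeGroup.of (e (i, (y : FreeGroup ℕ ⧸ S)))))
        FreeGroup.of L 1 = ψ U := by
    intro T _ ψ
    have := bval_pull (MonoidHom.id (FreeGroup ℕ)) ψ
      (fun i (y : FreeGroup ℕ) => FreeGroup.of (e (i, (y : FreeGroup ℕ ⧸ S)))) FreeGroup.of 1 L 1
    simpa using this
  have hpush0 : ∀ {T : Type} [Group T] (ψ : FreeGroup ℕ →* T),
      bval (fun i (y : FreeGroup ℕ) => ψ (FreeGroup.of (e (i, (y : FreeGroup ℕ ⧸ S)))))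
        FreeGroup.of L 1 = ψ U := by
    intro T _ ψ
    have := bval_pull (MonoidHom.id (FreeGroup ℕ)) ψ
      (fun i (y : FreeGroup ℕ) => FreeGroup.of (e (i, (y : FreeGroup ℕ ⧸ S)))) FreeGroup.of 1 L 1
    simpa using this
  have hUχ : χ U ≠ 1 := by
    rw [← hpush χ]
    have : (fun i (y : FreeGroup ℕ) => χ (FreeGroup.of (e (i, (y : FreeGroup ℕ ⧸ S))))) = c := by
      ext1 i
      ext1 y
      exact hχe i y
    rw [this]
    exact hx2
  have hU1 : ¬ U ∈ laws G₁ := fun h => hUχ (hN h χ)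
  have hU2 : ¬ ∀ f : FreeGroup ℕ →* G₁, f U = 1 := hU1
  push Not at hU2
  obtain ⟨ψ, hψ⟩ := hU2
  set t : ℕ → FreeGroup ℕ → G₁ :=
    fun i y => ψ (FreeGroup.of (e (i, (y : FreeGroup ℕ ⧸ S)))) with ht
  have ht1 : bval t FreeGroup.of L 1 ≠ 1 := by
    rw [hpush0 ψ]
    exact hψ
  set P := wpts FreeGroup.of L (1 : FreeGroup ℕ) with hP
  obtain ⟨T, _, h, k1, k2, k3⟩ := sep_laws h₂ ((P.product P).map fun a => a.1⁻¹ * a.2)
  set t' : ℕ → T → G₁ := fun i s => if hs : ∃ y ∈ P, h y = s then t i hs.choose else 1 with ht'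
  have ht'1 : ∀ y ∈ P, ∀ i, t' i (h y) = t i y := by
    intro y hy i
    have hs : ∃ y' ∈ P, h y' = h y := ⟨y, hy, rfl⟩
    rw [ht']
    simp only
    rw [dif_pos hs]
    obtain ⟨hs1, hs2⟩ := hs.choose_spec
    have h4 : hs.choose⁻¹ * y ∈ S := by
      by_contra hno
      refine k3 _ (List.mem_map.2 ⟨(hs.choose, y), List.mem_product.2 ⟨hs1, hy⟩, rfl⟩) hno ?_
      rw [map_mul, map_inv, hs2, inv_mul_cancel]
    have h5 : ((hs.choose : FreeGroup ℕ) : FreeGroup ℕ ⧸ S) = (y : FreeGroup ℕ ⧸ S) :=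
      QuotientGroup.eq.2 h4
    rw [ht]
    simp only
    rw [h5]
  have hb : bval t' (fun i => h (FreeGroup.of i)) L (h 1) ≠ 1 := by
    rw [bval_map h t FreeGroup.of t' L 1 ht'1]
    exact ht1
  have hmem : ∀ i, (⟨t' i, h (FreeGroup.of i)⟩ : RegularWreathProduct G₁ T) ∈ rwr G₁ T := by
    intro i
    change Set.Finite {s | t' i s ≠ 1}
    refine Set.Finite.subset (Set.Finite.image h (List.finite_toSet P)) ?_
    intro s hs
    by_contra hno
    apply hs
    rw [ht']
    simp only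
    rw [dif_neg]
    rintro ⟨y, hy, rfl⟩
    exact hno ⟨y, hy, rfl⟩
  have h6 := hw T k1 k2 (FreeGroup.lift fun i => (⟨_, hmem i⟩ : rwr G₁ T))
  have h7 : (rwr G₁ T).subtype.comp (FreeGroup.lift fun i => (⟨_, hmem i⟩ : rwr G₁ T)) =
      FreeGroup.lift fun i => (⟨t' i, h (FreeGroup.of i)⟩ : RegularWreathProduct G₁ T) := by
    apply FreeGroup.ext_hom
    intro i
    rw [MonoidHom.comp_apply, FreeGroup.lift_apply_of, FreeGroup.lift_apply_of]
    rfl
  have h8 := DFunLike.congr_fun h7 w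
  rw [MonoidHom.comp_apply, h6, map_one, ← hwL] at h8
  apply hb
  rw [← lift_left t' (fun i => h (FreeGroup.of i)) L (h 1), ← h8]
  rfl

/-- **Products of varieties of torsion groups.** -/
theorem main_prod {B : Type} [Group B] (hB : Infinite B) (hfg : Group.FG B) {q : ℕ}
    (hq : 0 < q) (hexp : ∀ b : B, b ^ q = 1) (G₁ G₂ : Type) [Group G₁] [Group G₂]
    (h₁ : ∀ x : G₁, IsOfFinOrder x) (h₂ : ∀ x : G₂, IsOfFinOrder x)
    (k₁ : ∃ v ∈ laws G₁, v ≠ 1) (k₂ : ∃ v ∈ laws G₂, v ≠ 1) :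
    ∃ (G : Type) (_ : Group G), Group.FG G ∧ (∀ g : G, IsOfFinOrder g) ∧
      (∃ w ∈ laws G, w ≠ 1) ∧
      ∀ (H : Type u) [Group H] (N : Subgroup H) [N.Normal], laws G₁ ≤ laws N →
        laws G₂ ≤ laws (H ⧸ N) → laws G ≤ laws H := by
  obtain ⟨v₁, hv₁, hne₁⟩ := k₁
  obtain ⟨v₂, hv₂, hne₂⟩ := k₂
  obtain ⟨φ, hφ, hφS⟩ := exists_inj hv₂ hne₂
  have hne : φ v₁ ≠ 1 := fun h => hne₁ (hφ (by rw [h, map_one]))
  obtain ⟨G, _, m1, m2, ⟨w₀, hw₀, hw₀'⟩, m4⟩ := main.{0} hB hfg hq hexp (φ v₁) hne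
  refine ⟨G, inferInstance, m1, m2, ⟨w₀, hw₀', hw₀⟩, ?_⟩
  intro H _ N _ hN hQ w hw f
  refine prod_law h₂ w ?_ ?_ N hN hQ f
  · exact m4 w hw G₂ (ResTorsion.of_torsion h₂) fun f => hφS v₁ f
  · intro T _ hT hT2
    refine m4 w hw (rwr G₁ T) (ResTorsion.of_torsion (torsion_rwr h₁ hT)) ?_
    intro f
    have := law_rwr (T := G₁) (Q := T) (S := laws G₂) hT2 hφS hv₁ ((rwr G₁ T).subtype.comp f)
    exact Subtype.ext this

end Y608.BUT
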