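import Mathlib
import Pool.Agent.Y608.BUT3

/-!
A word which is a law of all extensions of abelian groups of prime exponent by abelian groups is a
law of all metabelian groups.
-/

set_option autoImplicit false

namespace Y608.BUT

open scoped commutatorElement

universe u

/-- the derived subgroup of the free group -/
abbrev F1 : Subgroup (FreeGroup ℕ) := commutator (FreeGroup ℕ)

theorem comm_mem_F1 (x y : FreeGroup ℕ) : ⁅x, y⁆ ∈ F1 :=
  Subgroup.commutator_mem_commutator (Subgroup.mem_top x) (Subgroup.mem_top y)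

/-- elements of `F'` whose class in the abelianization of `F'` is a `p`-th power -/
def Mp (p : ℕ) : Subgroup (FreeGroup ℕ) where
  carrier := {x | ∃ h : x ∈ F1, ∃ a : Abelianization F1, Abelianization.of (⟨x, h⟩ : F1) = a ^ p}
  one_mem' := ⟨one_mem _, 1, by rw [one_pow]; exact map_one _⟩
  mul_mem' := by
    rintro x y ⟨hx, a, ha⟩ ⟨hy, b, hb⟩
    refine ⟨mul_mem hx hy, a * b, ?_⟩
    rw [mul_pow, ← ha, ← hb, ← map_mul]
    rfl
  inv_mem' := by
    rintro x ⟨hx, a, ha⟩
    refine ⟨inv_mem hx, a⁻¹, ?_⟩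
    rw [inv_pow, ← ha, ← map_inv]
    rfl

instance (p : ℕ) : (Mp p).Normal := by
  refine ⟨?_⟩
  rintro x ⟨hx, a, ha⟩ g
  refine ⟨Subgroup.Normal.conj_mem inferInstance x hx g,
    Abelianization.map ((MulAut.conjNormal g : MulAut F1) : F1 ≃* F1).toMonoidHom a, ?_⟩
  rw [← map_pow, ← ha, Abelianization.map_of]
  rfl

theorem eq_one_of_all_pow (α : Abelianization F1)
    (h : ∀ p : ℕ, p.Prime → ∃ a : Abelianization F1, α = a ^ p) : α = 1 := by
  let E : Abelianization F1 ≃* Abelianization (FreeGroup (IsFreeGroup.Generators F1)) :=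
    (IsFreeGroup.toFreeGroup F1).abelianizationCongr
  let E2 : Additive (Abelianization F1) ≃+ FreeAbelianGroup (IsFreeGroup.Generators F1) :=
    MulEquiv.toAdditive E
  let E3 : Additive (Abelianization F1) ≃+ (IsFreeGroup.Generators F1 →₀ ℤ) :=
    E2.trans (FreeAbelianGroup.equivFinsupp _)
  have h1 : E3 (Additive.ofMul α) = 0 := by
    ext x
    rw [Finsupp.zero_apply]
    by_contra hne
    set z : ℤ := E3 (Additive.ofMul α) x with hz
    obtain ⟨p, hp1, hp2⟩ := Nat.exists_infinite_primes (z.natAbs + 1)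
    obtain ⟨a, ha⟩ := h p hp2
    have h3 : z = p * E3 (Additive.ofMul a) x := by
      rw [hz, ha, ofMul_pow, map_nsmul, Finsupp.smul_apply, nsmul_eq_mul]
    have h4 : p ∣ z.natAbs := by
      rw [h3, Int.natAbs_mul, Int.natAbs_natCast]
      exact dvd_mul_right _ _
    have h5 := Nat.le_of_dvd (Int.natAbs_pos.2 hne) h4
    omega
  have h2 : Additive.ofMul α = 0 := by
    rw [← E3.map_eq_zero_iff]; exact h1
  exact h2

/-- The reduction of metabelian groups to extensions of groups of prime exponent. -/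
theorem metabelian_of_all_p (w : FreeGroup ℕ)
    (hw : ∀ p : ℕ, p.Prime → ∀ (H : Type) [Group H] (N : Subgroup H) [N.Normal],
      (∀ x ∈ N, x ^ p = 1) → (∀ x ∈ N, ∀ y ∈ N, x * y = y * x) →
      (∀ x y : H ⧸ N, x * y = y * x) → ∀ f : FreeGroup ℕ →* H, f w = 1)
    (H : Type u) [Group H] (N : Subgroup H) [N.Normal]
    (h2 : ∀ x ∈ N, ∀ y ∈ N, x * y = y * x) (h3 : ∀ x y : H ⧸ N, x * y = y * x)
    (f : FreeGroup ℕ →* H) : f w = 1 := by
  -- `w` lies in the derived subgroup
  have hw1 : w ∈ F1 := by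
    have h := hw 2 Nat.prime_two (Abelianization (FreeGroup ℕ)) ⊥
      (by intro x hx; rw [Subgroup.mem_bot] at hx; rw [hx, one_pow])
      (by intro x _ y _; exact mul_comm x y)
      (by
        intro x y
        obtain ⟨x, rfl⟩ := QuotientGroup.mk_surjective x
        obtain ⟨y, rfl⟩ := QuotientGroup.mk_surjective y
        rw [← QuotientGroup.mk_mul, ← QuotientGroup.mk_mul, mul_comm])
      Abelianization.of
    exact (QuotientGroup.eq_one_iff w).1 h
  have hcomm : ∀ (G : Type u) [Group G] (K : Subgroup G) [K.Normal],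
      (∀ x y : G ⧸ K, x * y = y * x) → ∀ x y : G, ⁅x, y⁆ ∈ K := by
    intro G _ K _ h x y
    rw [← QuotientGroup.eq_one_iff]
    have := h (x : G ⧸ K) (y : G ⧸ K)
    rw [commutatorElement_def, QuotientGroup.mk_mul, QuotientGroup.mk_mul, QuotientGroup.mk_mul,
      QuotientGroup.mk_inv, QuotientGroup.mk_inv, this]
    group
  have hp : ∀ p : ℕ, p.Prime → w ∈ Mp p := by
    intro p hp
    have hpow : ∀ x : FreeGroup ℕ, x ∈ F1 → x ^ p ∈ Mp p := by
      intro x hx
      refine ⟨pow_mem hx p, Abelianization.of ⟨x, hx⟩, ?_⟩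
      rw [← map_pow]
      rfl
    have hcm : ∀ x y : FreeGroup ℕ, x ∈ F1 → y ∈ F1 → ⁅x, y⁆ ∈ Mp p := by
      intro x y hx hy
      refine ⟨comm_mem_F1 x y, 1, ?_⟩
      have : (⟨⁅x, y⁆, comm_mem_F1 x y⟩ : F1) = ⁅(⟨x, hx⟩ : F1), (⟨y, hy⟩ : F1)⁆ := rfl
      rw [this, map_commutatorElement, one_pow, commutatorElement_eq_one_iff_mul_comm]
      exact mul_comm _ _
    haveI hN' : (F1.map (QuotientGroup.mk' (Mp p))).Normal :=
      Subgroup.Normal.map inferInstance _ (QuotientGroup.mk'_surjective _)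
    have h := hw p hp (FreeGroup ℕ ⧸ Mp p) (F1.map (QuotientGroup.mk' (Mp p)))
      (by
        rintro _ ⟨x, hx, rfl⟩
        rw [← map_pow]
        exact (QuotientGroup.eq_one_iff _).2 (hpow x hx))
      (by
        rintro _ ⟨x, hx, rfl⟩ _ ⟨y, hy, rfl⟩
        rw [← commutatorElement_eq_one_iff_mul_comm, ← map_commutatorElement]
        exact (QuotientGroup.eq_one_iff _).2 (hcm x y hx hy))
      (by
        intro x y
        obtain ⟨x, rfl⟩ := QuotientGroup.mk_surjective x
        obtain ⟨y, rfl⟩ := QuotientGroup.mk_surjective y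
        obtain ⟨x, rfl⟩ := QuotientGroup.mk_surjective x
        obtain ⟨y, rfl⟩ := QuotientGroup.mk_surjective y
        rw [← commutatorElement_eq_one_iff_mul_comm]
        change (QuotientGroup.mk (⁅(x : FreeGroup ℕ ⧸ Mp p), (y : FreeGroup ℕ ⧸ Mp p)⁆) :
          (FreeGroup ℕ ⧸ Mp p) ⧸ F1.map (QuotientGroup.mk' (Mp p))) = 1
        rw [QuotientGroup.eq_one_iff]
        exact ⟨⁅x, y⁆, comm_mem_F1 x y, map_commutatorElement _ _ _⟩)
      (QuotientGroup.mk' (Mp p))
    exact (QuotientGroup.eq_one_iff w).1 h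
  -- the class of `w` in the abelianization of `F'` is trivial
  have h5 : Abelianization.of (⟨w, hw1⟩ : F1) = 1 := by
    apply eq_one_of_all_pow
    intro p hpp
    obtain ⟨_, a, ha⟩ := hp p hpp
    exact ⟨a, ha⟩
  have h6 : (⟨w, hw1⟩ : F1) ∈ commutator F1 := (QuotientGroup.eq_one_iff _).1 h5
  -- conclusion
  have h7 : ∀ x : F1, f x ∈ N := by
    intro x
    have : commutator (FreeGroup ℕ) ≤ N.comap f := by
      rw [commutator_def, Subgroup.commutator_le]
      intro a _ b _
      rw [Subgroup.mem_comap, map_commutatorElement]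
      exact hcomm H N h3 _ _
    exact this x.2
  have h8 : commutator F1 ≤ (f.comp F1.subtype).ker := by
    rw [commutator_def, Subgroup.commutator_le]
    intro a _ b _
    rw [MonoidHom.mem_ker, map_commutatorElement, commutatorElement_eq_one_iff_mul_comm]
    exact h2 _ (h7 a) _ (h7 b)
  exact h8 h6

end Y608.BUT
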